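import Pool.Agent.H82R3.EK.Local
import Pool.Agent.H385R2.EcFin

/-!
The Euler product of `y² = x³ - D² x` over the cyclotomic field of level `q`.
-/

set_option autoImplicit false

namespace Pool.Agent.H82R3.EK

open NumberField IsDedekindDomain Filter
open Pool.Agent.H921R2.TatePole

section
variable {K : Type} [Field K] [NumberField K]

lemma natCast_mem_iff (v : HeightOneSpectrum (𝓞 K)) (n : ℕ) : ((n : ℕ) : 𝓞 K) ∈ v.asIdeal ↔ (below v : ℕ) ∣ n := by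
  have h1 := (nm_eq v).2.2
  constructor
  · intro h
    by_contra hne
    have hcop : Nat.Coprime (below v : ℕ) n := (Nat.Prime.coprime_iff_not_dvd (below v).2).2 hne
    obtain ⟨a, b, hab⟩ := Nat.isCoprime_iff_coprime.2 hcop
    apply v.isPrime.ne_top
    rw [Ideal.eq_top_iff_one]
    have h3 : ((a : 𝓞 K) * ((below v : ℕ) : 𝓞 K) + (b : 𝓞 K) * (n : 𝓞 K)) = 1 := by
      have := congrArg (Int.cast : ℤ → 𝓞 K) hab
      push_cast at this
      exact this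
    rw [← h3]
    exact v.asIdeal.add_mem (v.asIdeal.mul_mem_left _ h1) (v.asIdeal.mul_mem_left _ h)
  · rintro ⟨k, rfl⟩
    push_cast
    exact v.asIdeal.mul_mem_right _ h1

lemma Δ_mem_iff {D : ℕ} (v : HeightOneSpectrum (𝓞 K)) : (crv D (𝓞 K)).Δ ∈ v.asIdeal ↔ (below v : ℕ) ∣ 2 * D := by
  rw [crv_Δ, ← mul_pow, v.isPrime.pow_mem_iff_mem 6 (by norm_num), ← natCast_mem_iff]
  push_cast
  rfl

lemma factor_bad {D : ℕ} (v : HeightOneSpectrum (𝓞 K)) (hv : (below v : ℕ) ∣ 2 * D) (s : ℂ) :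
    factor (crv D (𝓞 K)) s v = 1 := by
  unfold factor
  rw [count_simp, trace_bad v hv, if_pos ((Δ_mem_iff v).2 hv)]
  simp

omit [NumberField K] in
lemma pow_cpow (p n : ℕ) (s : ℂ) : ((p : ℂ) ^ n) ^ s = ((p : ℂ) ^ s) ^ n := by
  induction n with
  | zero => simp
  | succ n ih =>
    rw [pow_succ, pow_succ, ← ih]
    have := Complex.natCast_mul_natCast_cpow (p ^ n) p s
    push_cast at this
    exact this

lemma nm_cpow (v : HeightOneSpectrum (𝓞 K)) (s : ℂ) :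
    ((Ideal.absNorm v.asIdeal : ℕ) : ℂ) ^ s = (((below v : ℕ) : ℂ) ^ s) ^ deg v := by
  have h := (nm_eq v).1
  unfold nm at h
  rw [h]
  push_cast
  exact pow_cpow _ _ _

omit [NumberField K] in
lemma prime_cpow (p : ℕ) (hp : p ≠ 0) (s : ℂ) : (p : ℂ) ^ (1 - 2 * s) = p * ((p : ℂ) ^ (-s)) ^ 2 := by
  have hp0 : (p : ℂ) ≠ 0 := Nat.cast_ne_zero.2 hp
  rw [Complex.cpow_sub _ _ hp0, Complex.cpow_one, Complex.cpow_neg, mul_comm 2 s, Complex.cpow_mul_ofNat]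
  field_simp

lemma factor_good {D : ℕ} (v : HeightOneSpectrum (𝓞 K)) (hv : ¬ (below v : ℕ) ∣ 2 * D) (s : ℂ) :
    factor (crv D (𝓞 K)) s v = (1 - (luc (H385.aD D (below v)) (below v : ℕ) (deg v) : ℂ) *
      (((below v : ℕ) : ℂ) ^ (-s)) ^ deg v + (((below v : ℕ) : ℤ) : ℂ) ^ deg v * (((below v : ℕ) : ℂ) ^ (-s)) ^ (2 * deg v))⁻¹ := by
  unfold factor
  rw [count_simp, trace_good v hv, if_neg (fun h => hv ((Δ_mem_iff v).1 h)), nm_cpow, nm_cpow,
    prime_cpow _ (below v).2.ne_zero, mul_pow, ← pow_mul, one_mul]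
  push_cast
  rfl

/-- the part of the factor different from one -/
lemma factor_sub_bound {D : ℕ} (v : HeightOneSpectrum (𝓞 K)) (s : ℂ) (hs : 3 / 2 < s.re)
    (hsmall : (nm v : ℝ) ^ (-(s.re - 1 / 2)) ≤ 1 / 6) :
    ‖factor (crv D (𝓞 K)) s v - 1‖ ≤ 6 * (nm v : ℝ) ^ (-(s.re - 1 / 2)) := by
  have hn0 : (0 : ℝ) < nm v := by
    have := two_le_nm v
    exact_mod_cast (by omega : 0 < nm v)
  have hn1 : (1 : ℝ) ≤ nm v := by
    have := two_le_nm v
    exact_mod_cast (by omega : 1 ≤ nm v)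
  by_cases hv : (below v : ℕ) ∣ 2 * D
  · rw [factor_bad v hv, sub_self, norm_zero]
    positivity
  · have hb := trace_bound v hv
    unfold factor
    rw [count_simp, if_neg (fun h => hv ((Δ_mem_iff v).1 h)), one_mul]
    set t : ℤ := ((Ideal.absNorm v.asIdeal : ℕ) : ℤ) -
      Nat.card {x : (𝓞 K ⧸ v.asIdeal) × (𝓞 K ⧸ v.asIdeal) // x.2 ^ 2 = x.1 ^ 3 - (D : 𝓞 K ⧸ v.asIdeal) ^ 2 * x.1} with ht
    set w : ℝ := (nm v : ℝ) ^ (-(s.re - 1 / 2)) with hw
    have e1 : ‖((Ideal.absNorm v.asIdeal : ℕ) : ℂ) ^ (-s)‖ = (nm v : ℝ) ^ (-s.re) := by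
      have := Complex.norm_natCast_cpow_of_pos (n := nm v) (by exact_mod_cast hn0) (-s)
      rw [Complex.neg_re] at this
      exact this
    have e2 : ‖((Ideal.absNorm v.asIdeal : ℕ) : ℂ) ^ (1 - 2 * s)‖ = (nm v : ℝ) ^ (1 - 2 * s.re) := by
      have := Complex.norm_natCast_cpow_of_pos (n := nm v) (by exact_mod_cast hn0) (1 - 2 * s)
      have h2 : (1 - 2 * s).re = 1 - 2 * s.re := by simp
      rw [h2] at this
      exact this
    set u : ℂ := -((t : ℂ) * ((Ideal.absNorm v.asIdeal : ℕ) : ℂ) ^ (-s)) +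
      ((Ideal.absNorm v.asIdeal : ℕ) : ℂ) ^ (1 - 2 * s) with hu
    have hu1 : ‖u‖ ≤ 3 * w := by
      have h1 : ‖(t : ℂ) * ((Ideal.absNorm v.asIdeal : ℕ) : ℂ) ^ (-s)‖ ≤ 2 * w := by
        rw [norm_mul, e1, Complex.norm_intCast]
        calc |(t : ℝ)| * (nm v : ℝ) ^ (-s.re) ≤ (2 * Real.sqrt (nm v)) * (nm v : ℝ) ^ (-s.re) :=
              mul_le_mul_of_nonneg_right (by rw [← Int.cast_abs]; exact hb) (by positivity)
          _ = 2 * w := by
              rw [hw, Real.sqrt_eq_rpow, mul_assoc, ← Real.rpow_add hn0]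
              congr 2
              ring
      have h2 : ‖((Ideal.absNorm v.asIdeal : ℕ) : ℂ) ^ (1 - 2 * s)‖ ≤ w := by
        rw [e2, hw]
        apply Real.rpow_le_rpow_of_exponent_le hn1
        linarith
      calc ‖u‖ ≤ ‖-((t : ℂ) * ((Ideal.absNorm v.asIdeal : ℕ) : ℂ) ^ (-s))‖ + _ := norm_add_le _ _
        _ ≤ 2 * w + w := add_le_add (by rwa [norm_neg]) h2
        _ = 3 * w := by ring
    have e3 : (1 - (t : ℂ) * ((Ideal.absNorm v.asIdeal : ℕ) : ℂ) ^ (-s) +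
      ((Ideal.absNorm v.asIdeal : ℕ) : ℂ) ^ (1 - 2 * s)) = 1 + u := by rw [hu]; ring
    rw [e3]
    have hu2 : ‖u‖ ≤ 1 / 2 := by linarith
    have h3 : 1 / 2 ≤ ‖1 + u‖ := by
      have := norm_sub_norm_le (1 : ℂ) (-u)
      rw [sub_neg_eq_add, norm_neg, norm_one] at this
      linarith
    have hne : 1 + u ≠ 0 := by
      intro h
      rw [h, norm_zero] at h3
      linarith
    have e4 : (1 + u)⁻¹ - 1 = -u / (1 + u) := by field_simp; ring
    rw [e4, norm_div, norm_neg, div_le_iff₀ (by linarith)]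
    nlinarith [norm_nonneg u]

lemma multipliable_factor {D : ℕ} (s : ℂ) (hs : 3 / 2 < s.re) :
    Multipliable (factor (K := K) (crv D (𝓞 K)) s) := by
  have hsum := nm_summable (K := K) (x := s.re - 1 / 2) (by linarith)
  have h1 : Summable (fun v : HeightOneSpectrum (𝓞 K) => ‖factor (crv D (𝓞 K)) s v - 1‖) := by
    refine Summable.of_norm_bounded_eventually (hsum.mul_left 6) ?_
    have h2 := hsum.tendsto_cofinite_zero.eventually (Iio_mem_nhds (by norm_num : (0 : ℝ) < 1 / 6))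
    filter_upwards [h2] with v hv
    rw [norm_norm]
    exact factor_sub_bound v s hs (le_of_lt hv)
  have h2 := multipliable_one_add_of_summable h1
  refine h2.congr (fun v => ?_)
  ring

variable (K) in
/-- product over the places above `p` -/
lemma fiber_prod {D : ℕ} (q : ℕ) [NeZero q] [IsCyclotomicExtension {q} ℚ K] (p : Nat.Primes) (hp : ¬ (p : ℕ) ∣ 2 * D)
    (m k : ℕ) [NeZero m] (hq : q = (p : ℕ) ^ k * m) (hm : ¬ (p : ℕ) ∣ m) (s : ℂ) :
    ∏ v : {v : HeightOneSpectrum (𝓞 K) // below v = p}, factor (crv D (𝓞 K)) s v.1 =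
      ((1 - (luc (H385.aD D p) (p : ℕ) (orderOf ((p : ℕ) : ZMod m)) : ℂ) *
        (((p : ℕ) : ℂ) ^ (-s)) ^ orderOf ((p : ℕ) : ZMod m) +
        (((p : ℕ) : ℤ) : ℂ) ^ orderOf ((p : ℕ) : ZMod m) * (((p : ℕ) : ℂ) ^ (-s)) ^ (2 * orderOf ((p : ℕ) : ZMod m))) ^
          (Nat.totient m / orderOf ((p : ℕ) : ZMod m)))⁻¹ := by
  obtain ⟨h1, h2⟩ := deg_and_count K q p m k hq hm
  have h3 : ∀ v : {v : HeightOneSpectrum (𝓞 K) // below v = p}, factor (crv D (𝓞 K)) s v.1 =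
      (1 - (luc (H385.aD D p) (p : ℕ) (orderOf ((p : ℕ) : ZMod m)) : ℂ) *
        (((p : ℕ) : ℂ) ^ (-s)) ^ orderOf ((p : ℕ) : ZMod m) +
        (((p : ℕ) : ℤ) : ℂ) ^ orderOf ((p : ℕ) : ZMod m) * (((p : ℕ) : ℂ) ^ (-s)) ^ (2 * orderOf ((p : ℕ) : ZMod m)))⁻¹ := by
    rintro ⟨v, hv⟩
    have h4 := h1 v hv
    subst hv
    rw [factor_good v hp, h4]
  rw [Finset.prod_congr rfl (fun v _ => h3 v), Finset.prod_const, Finset.card_univ, h2, inv_pow]

end

/-- roots of the Frobenius polynomial -/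
lemma exists_roots (a q : ℤ) : ∃ α β : ℂ, α + β = a ∧ α * β = q := by
  obtain ⟨z, hz⟩ := IsAlgClosed.exists_pow_nat_eq ((a : ℂ) ^ 2 - 4 * q) (n := 2) (by norm_num)
  refine ⟨((a : ℂ) + z) / 2, ((a : ℂ) - z) / 2, by ring, ?_⟩
  linear_combination -(1 / 4 : ℂ) * hz

lemma aD_bound {D p : ℕ} (hp : p.Prime) (hpD : ¬ p ∣ 2 * D) : |(H385.aD D p : ℝ)| ≤ 2 * Real.sqrt p := by
  have : Fact p.Prime := ⟨hp⟩
  have hp2 : p ≠ 2 := by
    intro h; apply hpD; rw [h]; exact dvd_mul_right 2 D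
  have hE : ringChar (ZMod p) ≠ 2 := by rw [ZMod.ringChar_zmod_n]; exact hp2
  have h4 := Pool.Agent.H341R2.Sharp.weil_sharp_monic hE (cub_monic (D : ZMod p))
    (by rw [cub_natDegree]; norm_num) (cub_nsq _)
  rw [cub_natDegree, ZMod.card] at h4
  have h5 : ∀ x : ZMod p, (cub (D : ZMod p)).eval x = x ^ 3 - (D : ZMod p) ^ 2 * x := by
    intro x
    rw [cub_eq]
    simp
  simp_rw [h5] at h4
  rw [aD_eq, card_points hE (fun x => x ^ 3 - (D : ZMod p) ^ 2 * x), ZMod.card]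
  push_cast
  rw [show (p : ℝ) - (p + ∑ x : ZMod p, (quadraticChar (ZMod p) (x ^ 3 - (D : ZMod p) ^ 2 * x) : ℝ)) =
    - ∑ x : ZMod p, (quadraticChar (ZMod p) (x ^ 3 - (D : ZMod p) ^ 2 * x) : ℝ) by ring, abs_neg]
  refine h4.trans (le_of_eq ?_)
  norm_num

lemma root_bound {a p : ℝ} (hp : 0 < p) (ha : |a| ≤ 2 * Real.sqrt p) {α β : ℂ} (h1 : α + β = a) (h2 : α * β = p) :
    ‖α‖ ≤ 3 * Real.sqrt p := by
  have h3 : α ^ 2 = a * α - p := by rw [← h1, ← h2]; ring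
  have h4 : ‖α‖ ^ 2 ≤ |a| * ‖α‖ + p := by
    rw [← norm_pow, h3]
    refine (norm_sub_le _ _).trans ?_
    rw [norm_mul, Complex.norm_real, Complex.norm_real, Real.norm_eq_abs, Real.norm_eq_abs, abs_of_pos hp]
  have h5 := Real.sq_sqrt hp.le
  have h6 := Real.sqrt_pos.2 hp
  by_contra hcon
  push Not at hcon
  have h7 : |a| * ‖α‖ ≤ 2 * Real.sqrt p * ‖α‖ := mul_le_mul_of_nonneg_right ha (norm_nonneg _)
  nlinarith

lemma root_small {p : ℕ} (hp : 3 ≤ p) {α s : ℂ} (hα : ‖α‖ ≤ 3 * Real.sqrt p) (hs : 3 / 2 < s.re) :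
    ‖α * (p : ℂ) ^ (-s)‖ < 1 := by
  have hp0 : (0 : ℝ) < p := by positivity
  have hp1 : (1 : ℝ) < p := by exact_mod_cast (by omega : 1 < p)
  have hp3 : (3 : ℝ) ≤ p := by exact_mod_cast hp
  rw [norm_mul, Complex.norm_natCast_cpow_of_pos (by omega), Complex.neg_re]
  have h1 : (p : ℝ) ^ (-s.re) < (p : ℝ) ^ (-(3 / 2) : ℝ) := Real.rpow_lt_rpow_of_exponent_lt hp1 (by linarith)
  have h2 : (p : ℝ) ^ (-(3 / 2) : ℝ) * Real.sqrt p = 1 / p := by
    rw [Real.sqrt_eq_rpow, ← Real.rpow_add hp0]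
    norm_num
    rw [Real.rpow_neg_one]
  have hsq := Real.sqrt_pos.2 hp0
  calc ‖α‖ * (p : ℝ) ^ (-s.re) ≤ 3 * Real.sqrt p * (p : ℝ) ^ (-s.re) := mul_le_mul_of_nonneg_right hα (by positivity)
    _ < 3 * Real.sqrt p * (p : ℝ) ^ (-(3 / 2) : ℝ) := mul_lt_mul_of_pos_left h1 (by positivity)
    _ = 3 * (1 / p) := by rw [← h2]; ring
    _ ≤ 1 := by rw [mul_one_div, div_le_one hp0]; exact hp3

/-- product over the characters -/
lemma char_prod {D : ℕ} (q : ℕ) [NeZero q] (p : ℕ) (hpp : p.Prime) (hp : ¬ p ∣ 2 * D)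
    (m k : ℕ) [NeZero m] (hq : q = p ^ k * m) (hm : ¬ p ∣ m) (s : ℂ) (hs : 3 / 2 < s.re) :
    ∏ χ : DirichletCharacter ℂ q, H385.eulD D χ.conductor χ.primitiveCharacter (s - 1 / 2) p =
      ((1 - (luc (H385.aD D p) (p : ℕ) (orderOf ((p : ℕ) : ZMod m)) : ℂ) *
        (((p : ℕ) : ℂ) ^ (-s)) ^ orderOf ((p : ℕ) : ZMod m) +
        (((p : ℕ) : ℤ) : ℂ) ^ orderOf ((p : ℕ) : ZMod m) * (((p : ℕ) : ℂ) ^ (-s)) ^ (2 * orderOf ((p : ℕ) : ZMod m))) ^
          (Nat.totient m / orderOf ((p : ℕ) : ZMod m)))⁻¹ := by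
  have hp3 : 3 ≤ p := by
    have h1 := hpp.two_le
    have h2 : p ≠ 2 := by
      intro h; apply hp; rw [h]; exact dvd_mul_right 2 D
    omega
  set X : ℂ := (p : ℂ) ^ (-s) with hX
  have h1 : ∀ χ : DirichletCharacter ℂ q, H385.eulD D χ.conductor χ.primitiveCharacter (s - 1 / 2) p =
      (fun z : ℂ => (1 - z * (H385.aD D p : ℂ) * X + z ^ 2 * ((((p : ℕ) : ℤ) : ℂ) * X ^ 2))⁻¹)
        (χ.primitiveCharacter ((p : ℕ) : ZMod χ.conductor)) := by
    intro χ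
    unfold H385.eulD
    rw [if_neg hp]
    have e1 : -(s - 1 / 2 + 1 / 2) = -s := by ring
    have e2 : -2 * (s - 1 / 2) = 1 - 2 * s := by ring
    rw [e1, e2, prime_cpow p hpp.ne_zero, ← hX]
    push_cast
    rfl
  simp_rw [h1]
  rw [prod_prim p hpp q m k hq hm (fun z : ℂ => (1 - z * (H385.aD D p : ℂ) * X +
    z ^ 2 * ((((p : ℕ) : ℤ) : ℂ) * X ^ 2))⁻¹) (by simp)]
  obtain ⟨α, β, hα, hβ⟩ := exists_roots (H385.aD D p) (p : ℤ)
  have hb := aD_bound hpp hp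
  have hα' : ‖α‖ ≤ 3 * Real.sqrt p := root_bound (by exact_mod_cast hpp.pos) hb
    (by rw [hα]; push_cast; rfl) (by rw [hβ]; push_cast; rfl)
  have hβ' : ‖β‖ ≤ 3 * Real.sqrt p := root_bound (by exact_mod_cast hpp.pos) hb
    (by rw [add_comm, hα]; push_cast; rfl) (by rw [mul_comm, hβ]; push_cast; rfl)
  have hu : IsUnit ((p : ℕ) : ZMod m) := (ZMod.isUnit_iff_coprime p m).2 ((Nat.Prime.coprime_iff_not_dvd hpp).2 hm)
  rw [Finset.prod_inv_distrib, prod_quad m ((p : ℕ) : ZMod m) hu (H385.aD D p) (p : ℤ) α β X hα hβ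
    (root_small hp3 hα' hs) (root_small hp3 hβ' hs)]

/-- the Euler product -/
theorem hasProd_euler {D : ℕ} (L : (q : ℕ) → DirichletCharacter ℂ q → ℂ → ℂ)
    (hL : ∀ (q : ℕ) (χ : DirichletCharacter ℂ q), 1 ≤ q → Nat.Coprime q (2 * D) → χ.IsPrimitive →
        Differentiable ℂ (L q χ) ∧ ∀ s : ℂ, 1 < s.re →
          HasProd (fun p : Nat.Primes => H385.eulD D q χ s p) (L q χ s))
    (q : ℕ) [NeZero q] (hq : Nat.Coprime q (2 * D)) (K : Type) [Field K] [NumberField K] [IsCyclotomicExtension {q} ℚ K]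
    (s : ℂ) (hs : 3 / 2 < s.re) :
    HasProd (factor (K := K) (crv D (𝓞 K)) s)
      (∏ χ : DirichletCharacter ℂ q, L χ.conductor χ.primitiveCharacter (s - 1 / 2)) := by
  have hre : 1 < (s - 1 / 2).re := by
    have : (s - 1 / 2).re = s.re - 1 / 2 := by simp
    rw [this]; linarith
  have h1 : HasProd (fun p : Nat.Primes => ∏ χ : DirichletCharacter ℂ q,
      H385.eulD D χ.conductor χ.primitiveCharacter (s - 1 / 2) p)
      (∏ χ : DirichletCharacter ℂ q, L χ.conductor χ.primitiveCharacter (s - 1 / 2)) := by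
    apply hasProd_prod
    intro χ _
    exact (hL χ.conductor χ.primitiveCharacter (Nat.one_le_iff_ne_zero.2 χ.conductor_ne_zero)
      (Nat.Coprime.coprime_dvd_left χ.conductor_dvd_level hq) χ.primitiveCharacter_isPrimitive).2 _ hre
  have h2 : ∀ p : Nat.Primes, ∏ χ : DirichletCharacter ℂ q,
      H385.eulD D χ.conductor χ.primitiveCharacter (s - 1 / 2) p =
      ∏ v : {v : HeightOneSpectrum (𝓞 K) // below v = p}, factor (crv D (𝓞 K)) s v.1 := by
    intro p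
    by_cases hp : (p : ℕ) ∣ 2 * D
    · rw [Finset.prod_eq_one, Finset.prod_eq_one]
      · rintro ⟨v, hv⟩ _
        exact factor_bad v (by rw [hv]; exact hp) s
      · intro χ _
        unfold H385.eulD
        rw [if_pos hp]
    · obtain ⟨k, m, hm, hqm⟩ := Nat.exists_eq_pow_mul_and_not_dvd (NeZero.ne q) (p : ℕ) p.2.ne_one
      have : NeZero m := ⟨by rintro rfl; exact hm (dvd_zero _)⟩
      rw [char_prod q p p.2 hp m k hqm hm s hs, fiber_prod K q p hp m k hqm hm s]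
  simp_rw [h2] at h1
  have h3 : Multipliable (factor (K := K) (crv D (𝓞 K)) s) := multipliable_factor s hs
  rw [← (Equiv.sigmaFiberEquiv (below (K := K))).hasProd_iff]
  refine HasProd.sigma_of_hasProd h1 (fun p => ?_) ?_
  · exact hasProd_fintype _
  · exact (Equiv.sigmaFiberEquiv (below (K := K))).multipliable_iff.2 h3

end Pool.Agent.H82R3.EK
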