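import Pool.Agent.H82R3.EK.Pack

/-!
Sums over all characters of level `q`, `X < q ≤ Y`, in terms of primitive characters.
-/

set_option autoImplicit false

open Finset DirichletCharacter

namespace Pool.Agent.H82R3.EK

/-- the sum over the primitive characters mod `d` -/
noncomputable def PP (f : (q : ℕ) → DirichletCharacter ℂ q → ℝ) (d : ℕ) : ℝ :=
  ∑ᶠ χ : {χ : DirichletCharacter ℂ d // χ.IsPrimitive}, f d χ

/-- the sum over all characters mod `q`, in terms of the associated primitive characters -/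
noncomputable def SS (f : (q : ℕ) → DirichletCharacter ℂ q → ℝ) (q : ℕ) : ℝ :=
  ∑ᶠ χ : DirichletCharacter ℂ q, f χ.conductor χ.primitiveCharacter

lemma prim_transfer (f : (q : ℕ) → DirichletCharacter ℂ q → ℝ) (q : ℕ) [NeZero q] {d d' : ℕ} (h : d = d') (hd : d ∣ q)
    (hd' : d' ∣ q) (ψ : DirichletCharacter ℂ d) (ψ' : DirichletCharacter ℂ d')
    (e : changeLevel hd ψ = changeLevel hd' ψ') : f d ψ = f d' ψ' := by
  subst h
  rw [changeLevel_injective hd e]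

lemma SS_eq (f : (q : ℕ) → DirichletCharacter ℂ q → ℝ) (q : ℕ) (hq : 1 ≤ q) :
    SS f q = ∑ d ∈ q.divisors, PP f d := by
  classical
  have : NeZero q := ⟨by omega⟩
  unfold SS
  rw [finsum_eq_sum_of_fintype, ← Finset.sum_fiberwise_of_maps_to (g := fun χ : DirichletCharacter ℂ q => χ.conductor)
    (t := q.divisors) (fun χ _ => Nat.mem_divisors.2 ⟨χ.conductor_dvd_level, by omega⟩)]
  apply Finset.sum_congr rfl
  intro d hd
  rw [Nat.mem_divisors] at hd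
  have : NeZero d := ⟨by rintro rfl; exact hd.2 (Nat.eq_zero_of_zero_dvd hd.1)⟩
  unfold PP
  rw [finsum_eq_sum_of_fintype]
  symm
  refine Finset.sum_bij (fun ψ _ => changeLevel hd.1 ψ.1) ?_ ?_ ?_ ?_
  · intro ψ _
    rw [mem_filter]
    refine ⟨mem_univ _, ?_⟩
    rw [conductor_changeLevel]
    exact ψ.2
  · intro a _ b _ hab
    exact Subtype.ext (changeLevel_injective hd.1 hab)
  · intro χ hχ
    rw [mem_filter] at hχ
    obtain ⟨_, hc⟩ := hχ
    subst hc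
    exact ⟨⟨χ.primitiveCharacter, χ.primitiveCharacter_isPrimitive⟩, mem_univ _, χ.changeLevel_primitiveCharacter⟩
  · intro ψ _
    have hc : (changeLevel hd.1 ψ.1).conductor = d := by
      rw [conductor_changeLevel]; exact ψ.2
    refine prim_transfer f q hc.symm hd.1 (conductor_dvd_level _) _ _ ?_
    rw [changeLevel_primitiveCharacter]

/-- the average over all characters -/
lemma window (M X Y : ℕ) (f : (q : ℕ) → DirichletCharacter ℂ q → ℝ) :
    ∑ q ∈ (Finset.Ioc X Y).filter (fun q => Nat.Coprime q M), (1 / (q : ℝ) ^ 2) * SS f q =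
      ∑ m ∈ (Finset.Icc 1 Y).filter (fun m => Nat.Coprime m M), (1 / (m : ℝ) ^ 2) * H385.primFamM M (X / m) (Y / m) f := by
  have h1 : ∀ q ∈ (Finset.Ioc X Y).filter (fun q => Nat.Coprime q M), (1 / (q : ℝ) ^ 2) * SS f q =
      ∑ d ∈ q.divisors, (1 / (q : ℝ) ^ 2) * PP f d := by
    intro q hq
    rw [mem_filter, mem_Ioc] at hq
    rw [SS_eq f q (by omega), Finset.mul_sum]
  have h2 : ∀ m ∈ (Finset.Icc 1 Y).filter (fun m => Nat.Coprime m M),
      (1 / (m : ℝ) ^ 2) * H385.primFamM M (X / m) (Y / m) f =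
      ∑ d ∈ (Finset.Ioc (X / m) (Y / m)).filter (fun d => Nat.Coprime d M), (1 / ((d * m : ℕ) : ℝ) ^ 2) * PP f d := by
    intro m hm
    unfold H385.primFamM
    rw [Finset.mul_sum]
    apply Finset.sum_congr rfl
    intro d _
    unfold PP
    push_cast
    rw [← mul_assoc]
    congr 1
    rw [mul_pow]
    ring
  rw [Finset.sum_congr rfl h1, Finset.sum_congr rfl h2, Finset.sum_sigma', Finset.sum_sigma']
  refine Finset.sum_bij' (fun (x : Σ _ : ℕ, ℕ) _ => (⟨x.1 / x.2, x.2⟩ : Σ _ : ℕ, ℕ))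
    (fun (x : Σ _ : ℕ, ℕ) _ => (⟨x.2 * x.1, x.2⟩ : Σ _ : ℕ, ℕ)) ?_ ?_ ?_ ?_ ?_
  · rintro ⟨q, d⟩ hx
    rw [mem_sigma, mem_filter, mem_Ioc, Nat.mem_divisors] at hx
    obtain ⟨⟨⟨h3, h4⟩, h5⟩, ⟨m, hm⟩, h7⟩ := hx
    simp only at h3 h4 h5 hm h7 ⊢
    have hd : 0 < d := Nat.pos_of_ne_zero (by rintro rfl; simp at hm; omega)
    have hm0 : 0 < m := Nat.pos_of_ne_zero (by rintro rfl; simp at hm; omega)
    have e1 : q / d = m := by rw [hm, Nat.mul_div_cancel_left _ hd]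
    rw [e1, mem_sigma, mem_filter, mem_filter, mem_Icc, mem_Ioc]
    refine ⟨⟨⟨hm0, ?_⟩, ?_⟩, ⟨?_, ?_⟩, ?_⟩
    · have : m ≤ q := by rw [hm]; exact Nat.le_mul_of_pos_left m hd
      exact this.trans h4
    · exact Nat.Coprime.coprime_dvd_left ⟨d, by rw [hm]; ring⟩ h5
    · rw [Nat.div_lt_iff_lt_mul hm0, ← hm]; exact h3
    · rw [Nat.le_div_iff_mul_le hm0, ← hm]; exact h4
    · exact Nat.Coprime.coprime_dvd_left ⟨m, hm⟩ h5
  · rintro ⟨m, d⟩ hx
    rw [mem_sigma, mem_filter, mem_filter, mem_Icc, mem_Ioc] at hx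
    obtain ⟨⟨⟨h3, h4⟩, h5⟩, ⟨h6, h7⟩, h8⟩ := hx
    simp only at h3 h4 h5 h6 h7 h8 ⊢
    have hm0 : 0 < m := h3
    rw [Nat.div_lt_iff_lt_mul hm0] at h6
    rw [Nat.le_div_iff_mul_le hm0] at h7
    rw [mem_sigma, mem_filter, mem_Ioc, Nat.mem_divisors]
    refine ⟨⟨⟨h6, h7⟩, Nat.Coprime.mul_left h8 h5⟩, dvd_mul_right _ _, ?_⟩
    show d * m ≠ 0
    omega
  · rintro ⟨q, d⟩ hx
    rw [mem_sigma, mem_filter, mem_Ioc, Nat.mem_divisors] at hx
    obtain ⟨_, hm, _⟩ := hx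
    simp only at hm ⊢
    rw [Nat.mul_div_cancel' hm]
  · rintro ⟨m, d⟩ hx
    rw [mem_sigma, mem_filter, mem_filter, mem_Icc, mem_Ioc] at hx
    obtain ⟨_, ⟨h6, _⟩, _⟩ := hx
    simp only at h6 ⊢
    have hd : 0 < d := lt_of_le_of_lt (Nat.zero_le _) h6
    rw [Nat.mul_div_cancel_left _ hd]
  · rintro ⟨q, d⟩ hx
    rw [mem_sigma, mem_filter, mem_Ioc, Nat.mem_divisors] at hx
    obtain ⟨_, hm, _⟩ := hx
    simp only at hm ⊢
    rw [Nat.mul_div_cancel' hm]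

end Pool.Agent.H82R3.EK
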