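import Pool.Agent.H82R3.EK.Avg

/-!
Upper and lower bounds for the number of zeros, and the final average over the levels.
-/

set_option autoImplicit false

open Finset DirichletCharacter
open H370 (zset mult NN Nd Ns)

namespace Pool.Agent.H82R3.EK

lemma exp_big (c : ℝ) : ∃ ℓ0 : ℝ, 1 ≤ ℓ0 ∧ ∀ ℓ : ℝ, ℓ0 ≤ ℓ → c * ℓ ^ 2 ≤ Real.exp (ℓ / 2) := by
  refine ⟨1 + 384 * |c|, by nlinarith [abs_nonneg c], fun ℓ hℓ => ?_⟩
  have h0 : 0 ≤ |c| := abs_nonneg c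
  have hℓ1 : 1 ≤ ℓ := by nlinarith
  have h1 := Real.pow_div_factorial_le_exp (ℓ / 2) (by linarith) 4
  have h2 : ((Nat.factorial 4 : ℕ) : ℝ) = 24 := by norm_num [Nat.factorial]
  rw [h2] at h1
  have h3 : c * ℓ ^ 2 ≤ |c| * ℓ ^ 2 := mul_le_mul_of_nonneg_right (le_abs_self c) (by positivity)
  have h4 : |c| * ℓ ^ 2 ≤ (ℓ / 2) ^ 4 / 24 := by
    have h5 : 384 * |c| ≤ ℓ ^ 2 := by nlinarith
    have h6 : (ℓ / 2) ^ 4 / 24 = ℓ ^ 2 * ℓ ^ 2 / 384 := by ring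
    rw [h6]
    nlinarith [sq_nonneg ℓ]
  linarith

/-- lower bound for the number of zeros -/
lemma lower (A : ℝ) (hA : 1 ≤ A) (D : ℕ) (hD : 1 ≤ D) : ∃ ℓ0 : ℝ, 1 ≤ ℓ0 ∧ ∀ (X : ℝ) (q : ℕ) (F : ℂ → ℂ) (a : ℕ → ℂ) (T : ℝ),
    1 ≤ X → ℓ0 ≤ Real.log X → X ≤ q → (q : ℝ) ≤ X ^ 2 → Real.log X ^ 2 ≤ T → T ≤ X →
    H385.GoodD 2 A ((q * D : ℕ) : ℝ) F a → T ≤ (NN F T (2 * T) : ℝ) := by
  obtain ⟨C, hC, h⟩ := H385.N_lower_D 2 A (by norm_num) hA
  obtain ⟨ℓ1, hℓ1, hexp⟩ := exp_big 16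
  refine ⟨max (max ℓ1 9) (max (Real.log D) (4 * (6 * C + 1))), le_trans hℓ1 (le_trans (le_max_left _ _) (le_max_left _ _)), ?_⟩
  intro X q F a T hX1 hℓ hXq hqX hT1 hT2 hF
  set ℓ := Real.log X with hℓdef
  have b1 : ℓ1 ≤ ℓ := le_trans (le_trans (le_max_left _ _) (le_max_left _ _)) hℓ
  have b2 : 9 ≤ ℓ := le_trans (le_trans (le_max_right _ _) (le_max_left _ _)) hℓ
  have b3 : Real.log D ≤ ℓ := le_trans (le_trans (le_max_left _ _) (le_max_right _ _)) hℓ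
  have b4 : 4 * (6 * C + 1) ≤ ℓ := le_trans (le_trans (le_max_right _ _) (le_max_right _ _)) hℓ
  have hX0 : 0 < X := by linarith
  have hD0 : (1 : ℝ) ≤ D := by exact_mod_cast hD
  have hq0 : (0 : ℝ) < q := by linarith
  have hT3 : 81 ≤ T := by nlinarith only [hT1, b2]
  have hT0 : 0 < T := by linarith
  set Q : ℝ := ((q * D : ℕ) : ℝ) with hQ
  have hQ' : Q = q * D := by rw [hQ]; push_cast; ring
  have hQ1 : 1 ≤ Q := by rw [hQ']; exact one_le_mul_of_one_le_of_one_le (by linarith) hD0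
  have hlog : Real.log (Q * T) = Real.log q + Real.log D + Real.log T := by
    rw [hQ', Real.log_mul (by positivity) (by positivity), Real.log_mul (by positivity) (by positivity)]
  have hlq1 : ℓ ≤ Real.log q := Real.log_le_log hX0 hXq
  have hlq2 : Real.log q ≤ 2 * ℓ := by
    have := Real.log_le_log hq0 hqX
    rwa [Real.log_pow] at this
  have hlD : 0 ≤ Real.log D := Real.log_nonneg hD0
  have hlT : 0 ≤ Real.log T := Real.log_nonneg (by linarith)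
  have hlT2 : Real.log T ≤ ℓ := Real.log_le_log hT0 hT2
  have g1 : ℓ ≤ Real.log (Q * T) := by rw [hlog]; linarith
  have g2 : Real.log (Q * T) ≤ 4 * ℓ := by rw [hlog]; linarith
  obtain ⟨r, hr0, hr⟩ : ∃ r : ℝ, 0 ≤ r ∧ r ^ 2 = ℓ := ⟨Real.sqrt ℓ, Real.sqrt_nonneg _, Real.sq_sqrt (by linarith)⟩
  have hs3 : 3 ≤ r := by
    by_contra hcon
    push Not at hcon
    have : r ^ 2 < 9 := by nlinarith only [hr0, hcon]
    linarith
  have hrℓ : r ≤ ℓ := by rw [← hr]; nlinarith only [hs3]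
  have hℓT : 9 * ℓ ≤ T := by nlinarith only [b2, hT1]
  have hs8 : 8 * r ≤ T := by linarith
  have key := h Q F a hQ1 hF T r hs3 hs8
  refine le_trans ?_ key
  have e1 : Real.exp (-r ^ 2 / 2) = (Real.exp (ℓ / 2))⁻¹ := by
    rw [hr, ← Real.exp_neg]; congr 1; ring
  have hE := hexp ℓ b1
  have hEpos : 0 < Real.exp (ℓ / 2) := Real.exp_pos _
  have hg0 : 0 ≤ Real.log (Q * T) := by linarith
  have hL2 : Real.log (Q * T) ^ 2 ≤ 16 * ℓ ^ 2 := by
    have := pow_le_pow_left₀ hg0 g2 2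
    linarith
  have t3 : T * Real.log (Q * T) ^ 2 * Real.exp (-r ^ 2 / 2) ≤ T := by
    rw [e1, ← div_eq_mul_inv, div_le_iff₀ hEpos]
    exact mul_le_mul_of_nonneg_left (hL2.trans hE) hT0.le
  have t2 : r * Real.log (Q * T) ≤ 4 * T := by
    have h2 : r * Real.log (Q * T) ≤ ℓ * (4 * ℓ) :=
      mul_le_mul hrℓ g2 hg0 (by linarith)
    linarith
  have t1 : T * ℓ / 4 ≤ T / (2 * Real.pi) * (2 * Real.log (Q * T)) := by
    have hpi := Real.pi_pos
    have hpi4 : Real.pi ≤ 4 := Real.pi_le_four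
    have : T / (2 * Real.pi) * (2 * Real.log (Q * T)) = T * Real.log (Q * T) / Real.pi := by field_simp
    rw [this, div_le_div_iff₀ (by norm_num) hpi]
    have h1 : T * ℓ ≤ T * Real.log (Q * T) := mul_le_mul_of_nonneg_left g1 hT0.le
    have h2 : 0 ≤ T * ℓ := mul_nonneg hT0.le (by linarith)
    calc T * ℓ * Real.pi ≤ T * ℓ * 4 := mul_le_mul_of_nonneg_left hpi4 h2
      _ ≤ T * Real.log (Q * T) * 4 := mul_le_mul_of_nonneg_right h1 (by norm_num)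
  have t4 : C * (T + r * Real.log (Q * T) + T * Real.log (Q * T) ^ 2 * Real.exp (-r ^ 2 / 2)) ≤
      C * (6 * T) := mul_le_mul_of_nonneg_left (by linarith) hC.le
  have t5 : T * (4 * (6 * C + 1)) ≤ T * ℓ := mul_le_mul_of_nonneg_left b4 hT0.le
  linarith

lemma PP_nonneg {f : (q : ℕ) → DirichletCharacter ℂ q → ℝ} (hf : ∀ q χ, 0 ≤ f q χ) (d : ℕ) : 0 ≤ PP f d := by
  unfold PP
  exact finsum_nonneg (fun χ => hf _ _)

lemma PP_le {f : (q : ℕ) → DirichletCharacter ℂ q → ℝ} {B : ℝ} {d : ℕ} (hd : 1 ≤ d) (hB : 0 ≤ B)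
    (hf : ∀ χ : DirichletCharacter ℂ d, χ.IsPrimitive → f d χ ≤ B) : PP f d ≤ d * B := by
  classical
  have : NeZero d := ⟨by omega⟩
  unfold PP
  rw [finsum_eq_sum_of_fintype]
  calc ∑ χ : {χ : DirichletCharacter ℂ d // χ.IsPrimitive}, f d χ ≤
        ∑ χ : {χ : DirichletCharacter ℂ d // χ.IsPrimitive}, B := Finset.sum_le_sum fun χ _ => hf _ χ.2
    _ = (Fintype.card {χ : DirichletCharacter ℂ d // χ.IsPrimitive} : ℝ) * B := by
        rw [Finset.sum_const, Finset.card_univ, nsmul_eq_mul]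
    _ ≤ d * B := by
        apply mul_le_mul_of_nonneg_right _ hB
        have h1 := Fintype.card_subtype_le (fun χ : DirichletCharacter ℂ d => χ.IsPrimitive)
        have h2 := DirichletCharacter.card_eq_totient_of_hasEnoughRootsOfUnity ℂ d
        rw [Nat.card_eq_fintype_card] at h2
        rw [h2] at h1
        exact_mod_cast h1.trans (Nat.totient_le d)

lemma fam_nonneg {f : (q : ℕ) → DirichletCharacter ℂ q → ℝ} (hf : ∀ q χ, 0 ≤ f q χ) (M X Y : ℕ) :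
    0 ≤ H385.primFamM M X Y f := by
  unfold H385.primFamM
  exact Finset.sum_nonneg fun q _ => mul_nonneg (by positivity) (PP_nonneg hf q)

lemma fam_le {f : (q : ℕ) → DirichletCharacter ℂ q → ℝ} {B : ℝ} {M X Y Z : ℕ} (hB : 0 ≤ B) (hYZ : Y ≤ Z) (hZ : 1 ≤ Z)
    (hf : ∀ d : ℕ, 1 ≤ d → d ≤ Z → Nat.Coprime d M → ∀ χ : DirichletCharacter ℂ d, χ.IsPrimitive → f d χ ≤ B) :
    H385.primFamM M X Y f ≤ B * (1 + Real.log Z) := by
  unfold H385.primFamM
  have h1 : ∀ d ∈ (Finset.Ioc X Y).filter (fun q => Nat.Coprime q M), (1 / (d : ℝ) ^ 2) * PP f d ≤ B * ((d : ℝ))⁻¹ := by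
    intro d hd
    rw [mem_filter, mem_Ioc] at hd
    have hd0 : (0 : ℝ) < d := by exact_mod_cast (by omega : 0 < d)
    have := PP_le (f := f) (B := B) (d := d) (by omega) hB (hf d (by omega) (by omega) hd.2)
    calc (1 / (d : ℝ) ^ 2) * PP f d ≤ (1 / (d : ℝ) ^ 2) * (d * B) := mul_le_mul_of_nonneg_left this (by positivity)
      _ = B * ((d : ℝ))⁻¹ := by field_simp
  refine (Finset.sum_le_sum h1).trans ?_
  rw [← Finset.mul_sum]
  apply mul_le_mul_of_nonneg_left _ hB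
  have h2 : ∑ d ∈ (Finset.Ioc X Y).filter (fun q => Nat.Coprime q M), ((d : ℝ))⁻¹ ≤ ∑ d ∈ Finset.Icc 1 Z, ((d : ℝ))⁻¹ := by
    apply Finset.sum_le_sum_of_subset_of_nonneg
    · intro d hd
      rw [mem_filter, mem_Ioc] at hd
      rw [mem_Icc]
      omega
    · intro d _ _
      positivity
  refine h2.trans ?_
  have h3 := harmonic_le_one_add_log Z
  rw [harmonic_eq_sum_Icc] at h3
  push_cast at h3
  exact h3

end Pool.Agent.H82R3.EK
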