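import Pool.Agent.H82R3.EK.FF

/-!
Products over all Dirichlet characters of a given level.
-/

set_option autoImplicit false

namespace Pool.Agent.H82R3.EK

open Finset DirichletCharacter

lemma hasSum_congr_fun {f g : ℕ → ℂ} {a : ℂ} (h : HasSum f a) (hfg : ∀ n, g n = f n) : HasSum g a := by
  rwa [show g = f from funext hfg]

/-- `∏_χ (1 - χ(a) Y) = (1 - Y^f)^(φ(m)/f)` -/
lemma prod_char (m : ℕ) [NeZero m] (a : ZMod m) (ha : IsUnit a) (Y : ℂ) (hY : ‖Y‖ < 1) :
    ∏ χ : DirichletCharacter ℂ m, (1 - χ a * Y) =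
      (1 - Y ^ orderOf a) ^ (Nat.totient m / orderOf a) := by
  classical
  have hf0 : 0 < orderOf a := by
    obtain ⟨u, rfl⟩ := ha
    rw [orderOf_units]
    exact orderOf_pos u
  set f := orderOf a with hf
  have hfN : f ∣ Nat.totient m := by
    obtain ⟨u, rfl⟩ := ha
    rw [hf, orderOf_units, ← ZMod.card_units_eq_totient]
    exact orderOf_dvd_card
  have hYf : ‖Y ^ f‖ < 1 := by
    rw [norm_pow]
    exact pow_lt_one₀ (norm_nonneg _) hY hf0.ne'
  have hχ : ∀ χ : DirichletCharacter ℂ m, ‖χ a * Y‖ < 1 := by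
    intro χ
    rw [norm_mul]
    have := χ.norm_le_one a
    calc ‖χ a‖ * ‖Y‖ ≤ 1 * ‖Y‖ := mul_le_mul_of_nonneg_right this (norm_nonneg _)
      _ < 1 := by rwa [one_mul]
  have h1 : HasSum (fun k : ℕ => ∑ χ : DirichletCharacter ℂ m, (χ a * Y) ^ k / k)
      (∑ χ : DirichletCharacter ℂ m, -Complex.log (1 - χ a * Y)) :=
    hasSum_sum fun χ _ => Complex.hasSum_taylorSeries_neg_log (hχ χ)
  have h2 : ∀ k : ℕ, ∑ χ : DirichletCharacter ℂ m, (χ a * Y) ^ k / k =
      if f ∣ k then (Nat.totient m : ℂ) * (Y ^ k / k) else 0 := by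
    intro k
    have e1 : ∀ χ : DirichletCharacter ℂ m, (χ a * Y) ^ k / k = χ (a ^ k) * (Y ^ k / k) := by
      intro χ
      rw [mul_pow, map_pow, mul_div_assoc]
    simp_rw [e1]
    rw [← Finset.sum_mul, sum_characters_eq]
    by_cases hk : f ∣ k
    · rw [if_pos hk, if_pos (orderOf_dvd_iff_pow_eq_one.1 hk)]
    · rw [if_neg hk, if_neg (fun h => hk (orderOf_dvd_iff_pow_eq_one.2 h)), zero_mul]
  have h3 : HasSum (fun j : ℕ => (Nat.totient m : ℂ) * (Y ^ (f * j) / ((f * j : ℕ) : ℂ)))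
      (∑ χ : DirichletCharacter ℂ m, -Complex.log (1 - χ a * Y)) := by
    have hinj : Function.Injective (fun j : ℕ => f * j) := fun i j h => Nat.eq_of_mul_eq_mul_left hf0 h
    have := (hinj.hasSum_iff (f := fun k : ℕ => ∑ χ : DirichletCharacter ℂ m, (χ a * Y) ^ k / k)
      (a := ∑ χ : DirichletCharacter ℂ m, -Complex.log (1 - χ a * Y)) (by
        intro k hk
        rw [h2, if_neg]
        rintro ⟨j, rfl⟩
        exact hk ⟨j, rfl⟩)).2 h1
    refine hasSum_congr_fun this (fun j => ?_)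
    show _ = ∑ χ : DirichletCharacter ℂ m, (χ a * Y) ^ (f * j) / ((f * j : ℕ) : ℂ)
    rw [h2, if_pos (dvd_mul_right f j)]
  have h4 : HasSum (fun j : ℕ => (Nat.totient m : ℂ) * (Y ^ (f * j) / ((f * j : ℕ) : ℂ)))
      ((Nat.totient m / f : ℕ) * -Complex.log (1 - Y ^ f)) := by
    have := (Complex.hasSum_taylorSeries_neg_log hYf).mul_left ((Nat.totient m / f : ℕ) : ℂ)
    refine hasSum_congr_fun this (fun j => ?_)
    have e1 : (Nat.totient m : ℂ) = f * ((Nat.totient m / f : ℕ) : ℂ) := by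
      rw [← Nat.cast_mul, Nat.mul_div_cancel' hfN]
    have hf0' : (f : ℂ) ≠ 0 := by exact_mod_cast hf0.ne'
    rw [e1, pow_mul]
    push_cast
    rcases eq_or_ne (j : ℂ) 0 with hj | hj
    · rw [hj]; simp
    · field_simp
  have h5 := h3.unique h4
  have h6 : Complex.exp (∑ χ : DirichletCharacter ℂ m, Complex.log (1 - χ a * Y)) =
      Complex.exp ((Nat.totient m / f : ℕ) * Complex.log (1 - Y ^ f)) := by
    congr 1
    rw [Finset.sum_neg_distrib] at h5
    linear_combination -h5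
  have hne : ∀ z : ℂ, ‖z‖ < 1 → 1 - z ≠ 0 := by
    intro z hz h
    have : z = 1 := by linear_combination -h
    rw [this] at hz
    simp at hz
  rw [Complex.exp_sum, Complex.exp_nat_mul, Complex.exp_log (hne _ hYf)] at h6
  rw [← h6]
  apply Finset.prod_congr rfl
  intro χ _
  rw [Complex.exp_log (hne _ (hχ χ))]

/-- the Euler factor of a quadratic polynomial -/
lemma prod_quad (m : ℕ) [NeZero m] (c : ZMod m) (hc : IsUnit c) (a q : ℤ) (α β X : ℂ)
    (h1 : α + β = a) (h2 : α * β = q) (hα : ‖α * X‖ < 1) (hβ : ‖β * X‖ < 1) :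
    ∏ χ : DirichletCharacter ℂ m, (1 - χ c * a * X + χ c ^ 2 * (q * X ^ 2)) =
      (1 - (luc a q (orderOf c) : ℂ) * X ^ orderOf c + (q : ℂ) ^ orderOf c * X ^ (2 * orderOf c)) ^
        (Nat.totient m / orderOf c) := by
  have e1 : ∀ χ : DirichletCharacter ℂ m, (1 - χ c * a * X + χ c ^ 2 * (q * X ^ 2)) =
      (1 - χ c * (α * X)) * (1 - χ c * (β * X)) := by
    intro χ
    rw [← h1, ← h2]; ring
  simp_rw [e1]
  rw [Finset.prod_mul_distrib, prod_char m c hc _ hα, prod_char m c hc _ hβ, ← mul_pow]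
  congr 1
  rw [luc_eq h1 h2, ← h2]
  ring

/-- characters of level `q = p^a m`: the value of the primitive character at `p` -/
lemma prod_prim {M : Type*} [CommMonoid M] (p : ℕ) (hp : p.Prime) (q m k : ℕ) [NeZero q] [NeZero m] (hq : q = p ^ k * m)
    (hm : ¬ p ∣ m) (Φ : ℂ → M) (h0 : Φ 0 = 1) :
    ∏ χ : DirichletCharacter ℂ q, Φ (χ.primitiveCharacter ((p : ℕ) : ZMod χ.conductor)) =
      ∏ χ : DirichletCharacter ℂ m, Φ (χ ((p : ℕ) : ZMod m)) := by
  classical
  have hmq : m ∣ q := ⟨p ^ k, by rw [hq]; ring⟩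
  have hcop : IsCoprime (p : ℤ) m := Nat.isCoprime_iff_coprime.2 ((Nat.Prime.coprime_iff_not_dvd hp).2 hm)
  symm
  rw [← Finset.prod_subset (s₁ := (univ : Finset (DirichletCharacter ℂ m)).map
    ⟨changeLevel hmq, changeLevel_injective hmq⟩) (s₂ := univ) (subset_univ _)]
  · rw [Finset.prod_map]
    apply Finset.prod_congr rfl
    intro χ _
    congr 1
    have e1 := primitiveCharacter_changeLevel_apply hmq χ (p : ℤ)
    have e2 := primitiveCharacter_apply_of_isCoprime χ hcop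
    rw [Int.cast_natCast, Int.cast_natCast] at e1 e2
    show χ ((p : ℕ) : ZMod m) = (changeLevel hmq χ).primitiveCharacter ((p : ℕ) : ZMod _)
    rw [e1, e2]
  · intro χ _ hχ
    have hpc : p ∣ χ.conductor := by
      by_contra hpc
      apply hχ
      rw [Finset.mem_map]
      have hdvd : χ.conductor ∣ m := by
        have h1 : χ.conductor ∣ p ^ k * m := hq ▸ χ.conductor_dvd_level
        exact ((Nat.Prime.coprime_iff_not_dvd hp).2 hpc).symm.pow_right k |>.dvd_of_dvd_mul_left h1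
      refine ⟨changeLevel hdvd χ.primitiveCharacter, mem_univ _, ?_⟩
      show changeLevel hmq (changeLevel hdvd χ.primitiveCharacter) = χ
      rw [← changeLevel_trans, changeLevel_primitiveCharacter]
    have h1 : χ.primitiveCharacter ((p : ℕ) : ZMod χ.conductor) = 0 := by
      have := (apply_eq_zero_iff χ.primitiveCharacter (p : ℤ)).2 (by
        rw [Nat.isCoprime_iff_coprime, Nat.Prime.coprime_iff_not_dvd hp]
        exact fun h => h hpc)
      rwa [Int.cast_natCast] at this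
    rw [h1, h0]

end Pool.Agent.H82R3.EK
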