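import Pool.Agent.H82R3.EK.Euler

/-!
Counting zeros of finite products of L-functions (after `Pool.Agent.H300R2.HWCount`, helper300).
-/

set_option autoImplicit false

open Complex Filter Topology Set
open H370 (zset mult NN Nd Ns)

namespace Pool.Agent.H82R3.EK

/-- zeros of `F` in `W`, with multiplicity -/
noncomputable def cnt (F : ℂ → ℂ) (W : Set ℂ) : ℕ := ∑ᶠ s ∈ {s : ℂ | s ∈ W ∧ F s = 0}, mult F s

lemma cnt_eq_sum {F : ℂ → ℂ} {W : Set ℂ} (Z : Finset ℂ) (hZ : ∀ s, s ∈ Z → s ∈ W)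
    (hZ' : ∀ s ∈ W, F s = 0 → s ∈ Z) (hF : ∀ s ∈ W, AnalyticAt ℂ F s) :
    cnt F W = ∑ s ∈ Z, mult F s := by
  unfold cnt
  have hsub : {s : ℂ | s ∈ W ∧ F s = 0} ⊆ (Z : Set ℂ) := fun s hs => hZ' s hs.1 hs.2
  have hfin : {s : ℂ | s ∈ W ∧ F s = 0}.Finite := Z.finite_toSet.subset hsub
  rw [finsum_mem_eq_finite_toFinset_sum _ hfin]
  refine Finset.sum_subset (fun s hs => ?_) (fun s hs hs' => ?_)
  · exact hsub (by simpa using hs)
  · have h1 : F s ≠ 0 := fun h => hs' (by simpa using ⟨hZ s hs, h⟩)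
    unfold mult analyticOrderNatAt
    rw [(hF s (hZ s hs)).analyticOrderAt_eq_zero.mpr h1]
    rfl

lemma mult_prod {ι : Type*} (S : Finset ι) (f : ι → ℂ → ℂ) {s : ℂ}
    (hf : ∀ i ∈ S, AnalyticAt ℂ (f i) s) (ht : ∀ i ∈ S, analyticOrderAt (f i) s ≠ ⊤) :
    mult (fun z => ∏ i ∈ S, f i z) s = ∑ i ∈ S, mult (f i) s ∧
      analyticOrderAt (fun z => ∏ i ∈ S, f i z) s ≠ ⊤ ∧
      AnalyticAt ℂ (fun z => ∏ i ∈ S, f i z) s := by
  classical
  induction S using Finset.induction_on with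
  | empty =>
    have h0 : AnalyticAt ℂ (fun _ : ℂ => (1 : ℂ)) s := analyticAt_const
    have h1 : analyticOrderAt (fun _ : ℂ => (1 : ℂ)) s = 0 :=
      h0.analyticOrderAt_eq_zero.mpr one_ne_zero
    refine ⟨?_, ?_, ?_⟩
    · simp [mult, analyticOrderNatAt, h1]
    · simp only [Finset.prod_empty]
      rw [h1]
      exact ENat.zero_ne_top
    · simpa using h0
  | insert a S ha ih =>
    obtain ⟨h1, h2, h3⟩ := ih (fun i hi => hf i (Finset.mem_insert_of_mem hi))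
      (fun i hi => ht i (Finset.mem_insert_of_mem hi))
    have h4 := hf a (Finset.mem_insert_self a S)
    have h5 := ht a (Finset.mem_insert_self a S)
    have h6 : (fun z => ∏ i ∈ insert a S, f i z) = (f a) * (fun z => ∏ i ∈ S, f i z) := by
      ext z
      rw [Finset.prod_insert ha]
      rfl
    have h7 : analyticOrderAt ((f a) * (fun z => ∏ i ∈ S, f i z)) s =
      analyticOrderAt (f a) s + analyticOrderAt (fun z => ∏ i ∈ S, f i z) s :=
      analyticOrderAt_mul h4 h3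
    rw [h6, Finset.sum_insert ha, ← h1]
    refine ⟨?_, ?_, h4.mul h3⟩
    · unfold mult analyticOrderNatAt
      rw [h7, ENat.toNat_add h5 h2]
    · rw [h7]
      exact WithTop.add_ne_top.mpr ⟨h5, h2⟩

/-- counting is additive over finite products -/
lemma cnt_prod {ι : Type*} (S : Finset ι) (f : ι → ℂ → ℂ) {W : Set ℂ}
    (hf : ∀ i ∈ S, ∀ s ∈ W, AnalyticAt ℂ (f i) s)
    (ht : ∀ i ∈ S, ∀ s ∈ W, analyticOrderAt (f i) s ≠ ⊤)
    (hfin : ∀ i ∈ S, {s : ℂ | s ∈ W ∧ f i s = 0}.Finite) :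
    cnt (fun z => ∏ i ∈ S, f i z) W = ∑ i ∈ S, cnt (f i) W := by
  classical
  have hunion : (⋃ i ∈ S, {s : ℂ | s ∈ W ∧ f i s = 0}).Finite :=
    Set.Finite.biUnion S.finite_toSet hfin
  set Z := hunion.toFinset with hZdef
  have hZ : ∀ s, s ∈ Z → s ∈ W := by
    intro s hs
    rw [hZdef, Set.Finite.mem_toFinset, Set.mem_iUnion₂] at hs
    obtain ⟨i, -, h⟩ := hs
    exact h.1
  have hZi : ∀ i ∈ S, ∀ s ∈ W, f i s = 0 → s ∈ Z := by
    intro i hi s hs h0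
    rw [hZdef, Set.Finite.mem_toFinset, Set.mem_iUnion₂]
    exact ⟨i, hi, hs, h0⟩
  rw [cnt_eq_sum Z hZ (fun s hs h0 => ?_) (fun s hs => ?_)]
  · rw [Finset.sum_congr rfl (fun s hs => (mult_prod S f (fun i hi => hf i hi s (hZ s hs))
      (fun i hi => ht i hi s (hZ s hs))).1), Finset.sum_comm]
    refine Finset.sum_congr rfl (fun i hi => ?_)
    rw [cnt_eq_sum Z hZ (hZi i hi) (hf i hi)]
  · obtain ⟨i, hi, h1⟩ := Finset.prod_eq_zero_iff.mp h0
    exact hZi i hi s hs h1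
  · exact (mult_prod S f (fun i hi => hf i hi s hs) (fun i hi => ht i hi s hs)).2.2

/-- the part of the open critical strip with `T1 < Im s ≤ T2` -/
def strip (T1 T2 : ℝ) : Set ℂ := {s : ℂ | 0 < s.re ∧ s.re < 1 ∧ T1 < s.im ∧ s.im ≤ T2}

/-- the part of the critical line with `T1 < Im s ≤ T2` -/
def line (T1 T2 : ℝ) : Set ℂ := {s : ℂ | s.re = 1 / 2 ∧ T1 < s.im ∧ s.im ≤ T2}

lemma NN_eq (F : ℂ → ℂ) (T1 T2 : ℝ) : NN F T1 T2 = cnt F (strip T1 T2) := by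
  have h : zset F T1 T2 = {s : ℂ | s ∈ strip T1 T2 ∧ F s = 0} := by
    ext s
    simp only [zset, strip, Set.mem_ofPred_eq, and_assoc]
  unfold NN cnt
  rw [h]

lemma Ns_le (F : ℂ → ℂ) (T1 T2 : ℝ) (hfin : (zset F T1 T2).Finite) :
    Ns F T1 T2 ≤ cnt F (line T1 T2) := by
  classical
  have hset : {s : ℂ | s ∈ line T1 T2 ∧ F s = 0} ⊆ zset F T1 T2 := by
    rintro s ⟨⟨h1, h2, h3⟩, h4⟩
    exact ⟨by rw [h1]; norm_num, by rw [h1]; norm_num, h2, h3, h4⟩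
  have hf := hfin.subset hset
  unfold Ns cnt
  rw [finsum_mem_eq_finite_toFinset_sum _ hf]
  have hsub : {s : ℂ | s ∈ zset F T1 T2 ∧ s.re = 1 / 2 ∧ mult F s = 1} ⊆
      {s : ℂ | s ∈ line T1 T2 ∧ F s = 0} := by
    rintro s ⟨⟨-, -, h1, h2, h3⟩, h4, -⟩
    exact ⟨⟨h4, h1, h2⟩, h3⟩
  have hf2 := hf.subset hsub
  rw [Set.ncard_eq_toFinset_card _ hf2, Finset.card_eq_sum_ones]
  calc ∑ s ∈ hf2.toFinset, 1 = ∑ s ∈ hf2.toFinset, mult F s := by
        refine Finset.sum_congr rfl (fun s hs => ?_)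
        rw [Set.Finite.mem_toFinset] at hs
        exact hs.2.2.symm
    _ ≤ ∑ s ∈ hf.toFinset, mult F s := by
        refine Finset.sum_le_sum_of_subset ?_
        exact Set.Finite.toFinset_subset_toFinset.mpr hsub

variable (n : ℕ) [NeZero n]

end Pool.Agent.H82R3.EK
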