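import Pool.Agent.H341R2.WeilSharp

/-!
Number of points on `y² = x³ - d² x` over finite extensions of a prime field.
-/

set_option autoImplicit false

namespace Pool.Agent.H82R3.EK

open Polynomial Finset
open Pool.Agent.H341R2.Sharp

/-- `s 0 = 2`, `s 1 = a`, `s (n+2) = a s (n+1) - q s n`: the power sums of the roots of `X² - a X + q` -/
def luc (a q : ℤ) : ℕ → ℤ
  | 0 => 2
  | 1 => a
  | n + 2 => a * luc a q (n + 1) - q * luc a q n

lemma luc_eq {a q : ℤ} {α β : ℂ} (h1 : α + β = a) (h2 : α * β = q) : ∀ n : ℕ, ((luc a q n : ℤ) : ℂ) = α ^ n + β ^ n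
  | 0 => by simp [luc]; norm_num
  | 1 => by simp [luc, h1]
  | n + 2 => by
    rw [luc]
    push_cast
    rw [luc_eq h1 h2 (n + 1), luc_eq h1 h2 n, ← h1, ← h2]
    ring

section
variable {F : Type*} [Field F] [Fintype F] [DecidableEq F]

/-- the cubic `X (X - d) (X + d)` -/
noncomputable def cub (d : F) : F[X] := X * ((X - C d) * (X + C d))

lemma cub_eq (d : F) : cub d = X ^ 3 - C (d ^ 2) * X := by
  unfold cub
  rw [C_pow]; ring

lemma cub_natDegree (d : F) : (cub d).natDegree = 3 := by
  unfold cub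
  rw [natDegree_X_mul (by
    exact mul_ne_zero (X_sub_C_ne_zero d) (by
      have := X_sub_C_ne_zero (-d); rwa [map_neg, sub_neg_eq_add] at this)),
    natDegree_mul (X_sub_C_ne_zero d) (by
      have := X_sub_C_ne_zero (-d); rwa [map_neg, sub_neg_eq_add] at this), natDegree_X_sub_C, natDegree_X_add_C]

lemma cub_monic (d : F) : (cub d).Monic := by
  unfold cub
  exact monic_X.mul ((monic_X_sub_C d).mul (monic_X_add_C d))

lemma lam_cub (d : F) (h : F[X]) (hh : h.natDegree = 2) :
    lam (cub d) h = quadraticChar F (eval 0 h * (eval d h * eval (-d) h)) := by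
  unfold lam
  have hX : (X + C d : F[X]) ≠ 0 := by
    have := X_sub_C_ne_zero (-d); rwa [map_neg, sub_neg_eq_add] at this
  have e1 : (cub d).natDegree = (X : F[X]).natDegree + ((X - C d) * (X + C d)).natDegree := by
    rw [cub_natDegree, natDegree_X, natDegree_mul (X_sub_C_ne_zero d) hX, natDegree_X_sub_C, natDegree_X_add_C]
  have e2 : ((X - C d) * (X + C d) : F[X]).natDegree = (X - C d : F[X]).natDegree + (X + C d : F[X]).natDegree :=
    natDegree_mul (X_sub_C_ne_zero d) hX
  rw [e1]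
  unfold cub
  rw [resultant_mul_right _ _ _ _ le_rfl, e2, resultant_mul_right _ _ _ _ le_rfl]
  have e3 : resultant h X h.natDegree (X : F[X]).natDegree = (-1) ^ h.natDegree * eval 0 h := by
    have := resultant_X_sub_C_right h h.natDegree (0 : F) le_rfl
    rw [map_zero, sub_zero] at this
    rw [natDegree_X]
    exact this
  rw [e3, natDegree_X_sub_C, natDegree_X_add_C, resultant_X_sub_C_right _ _ _ le_rfl, resultant_X_add_C_right _ _ _ le_rfl, hh]
  congr 1
  ring

/-- monic quadratics -/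
lemma sum_Mon_two (g : F[X] → ℤ) :
    ∑ h ∈ Mon F 2, g h = ∑ c : F, ∑ b : F, g (X ^ 2 + C b * X + C c) := by
  rw [← Finset.sum_product' (s := univ) (t := univ) (f := fun c b => g (X ^ 2 + C b * X + C c))]
  symm
  refine Finset.sum_bij' (fun (x : F × F) _ => (X ^ 2 + C x.2 * X + C x.1 : F[X])) (fun h _ => (h.coeff 0, h.coeff 1))
    ?_ ?_ ?_ ?_ ?_
  · intro x _
    rw [mem_Mon]
    have hd : (C x.2 * X + C x.1 : F[X]).degree < 2 := by
      refine lt_of_le_of_lt degree_linear_le ?_
      norm_num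
    constructor
    · rw [add_assoc]
      exact monic_X_pow_add (n := 2) (by exact_mod_cast hd)
    · have := natDegree_quadratic (R := F) (a := 1) (b := x.2) (c := x.1) one_ne_zero
      rwa [C_1, one_mul] at this
  · intro h _
    simp
  · intro x _
    ext <;> simp [coeff_X, coeff_C]
  · intro h hh
    rw [mem_Mon] at hh
    have h2 : h.coeff 2 = 1 := by rw [← hh.2]; exact hh.1
    conv_rhs => rw [h.as_sum_range_C_mul_X_pow, hh.2]
    rw [Finset.sum_range_succ, Finset.sum_range_succ, Finset.sum_range_succ, Finset.sum_range_zero, h2]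
    simp
    ring
  · intro x _
    rfl

/-- `∑ η(u² - b²)` -/
lemma sum_qc_sub (hF : ringChar F ≠ 2) (u : F) (hu : u ≠ 0) :
    ∑ b : F, quadraticChar F (u ^ 2 - b ^ 2) = - quadraticChar F (-1) := by
  have hinv : (quadraticChar F)⁻¹ = quadraticChar F := (quadraticChar_isQuadratic F).inv
  have hJ := jacobiSum_nontrivial_inv (quadraticChar_ne_one hF)
  rw [hinv] at hJ
  rw [← hJ, jacobiSum]
  have h2 : (2 : F) ≠ 0 := Ring.two_ne_zero hF
  have h2u : (2 * u) ≠ 0 := mul_ne_zero h2 hu
  symm
  refine Fintype.sum_equiv ((Equiv.mulLeft₀ (2 * u) h2u).trans (Equiv.subRight u)) _ _ (fun t => ?_)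
  show quadraticChar F t * quadraticChar F (1 - t) = quadraticChar F (u ^ 2 - (2 * u * t - u) ^ 2)
  have e1 : u ^ 2 - (2 * u * t - u) ^ 2 = (2 * u) ^ 2 * (t * (1 - t)) := by ring
  rw [e1, map_mul, quadraticChar_sq_one' h2u, one_mul, map_mul]

lemma A_two (hF : ringChar F ≠ 2) (d : F) (hd : d ≠ 0) : A (cub d) 2 = Fintype.card F := by
  unfold A
  have h1 : ∑ h ∈ Mon F 2, lam (cub d) h = ∑ h ∈ Mon F 2, quadraticChar F (eval 0 h * (eval d h * eval (-d) h)) :=
    Finset.sum_congr rfl fun h hh => lam_cub d h (mem_Mon.1 hh).2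
  rw [h1, sum_Mon_two]
  have h2 : ∀ c b : F, quadraticChar F (eval 0 (X ^ 2 + C b * X + C c : F[X]) *
      (eval d (X ^ 2 + C b * X + C c) * eval (-d) (X ^ 2 + C b * X + C c))) =
      quadraticChar F c * quadraticChar F ((d ^ 2 + c) ^ 2 - (d * b) ^ 2) := by
    intro c b
    rw [← map_mul]
    congr 1
    simp only [eval_add, eval_mul, eval_pow, eval_X, eval_C]
    ring
  simp_rw [h2, ← Finset.mul_sum]
  have h3 : ∀ c : F, ∑ b : F, quadraticChar F ((d ^ 2 + c) ^ 2 - (d * b) ^ 2) =
      ∑ b : F, quadraticChar F ((d ^ 2 + c) ^ 2 - b ^ 2) := by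
    intro c
    exact Fintype.sum_equiv (Equiv.mulLeft₀ d hd) _ _ (fun b => rfl)
  simp_rw [h3]
  have hneg : quadraticChar F (-1) * quadraticChar F (-1) = 1 := by
    rw [← map_mul]; simp
  have h4 : ∀ c : F, quadraticChar F c * ∑ b : F, quadraticChar F ((d ^ 2 + c) ^ 2 - b ^ 2) =
      - quadraticChar F (-1) * quadraticChar F c + if c = -d ^ 2 then (Fintype.card F : ℤ) else 0 := by
    intro c
    by_cases hc : c = -d ^ 2
    · rw [if_pos hc, hc]
      have e1 : ∀ b : F, quadraticChar F ((d ^ 2 + -d ^ 2) ^ 2 - b ^ 2) = quadraticChar F (-1) * (if b = 0 then 0 else 1) := by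
        intro b
        have : (d ^ 2 + -d ^ 2) ^ 2 - b ^ 2 = (-1) * b ^ 2 := by ring
        rw [this, map_mul]
        split_ifs with hb
        · rw [hb]; simp
        · rw [quadraticChar_sq_one' hb]
      simp_rw [e1]
      rw [← Finset.mul_sum]
      have e2 : ∑ b : F, (if b = 0 then (0 : ℤ) else 1) = Fintype.card F - 1 := by
        have : ∀ b : F, (if b = 0 then (0 : ℤ) else 1) = 1 - (if b = 0 then 1 else 0) := by
          intro b; split_ifs <;> simp
        simp_rw [this]
        rw [Finset.sum_sub_distrib]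
        simp
      rw [e2]
      have e3 : quadraticChar F (-d ^ 2) = quadraticChar F (-1) := by
        rw [show -d ^ 2 = (-1) * d ^ 2 by ring, map_mul, quadraticChar_sq_one' hd, mul_one]
      rw [e3]
      linear_combination (Fintype.card F : ℤ) * hneg
    · rw [if_neg hc, sum_qc_sub hF (d ^ 2 + c) (fun h => hc (by linear_combination h))]
      ring
  simp_rw [h4]
  rw [Finset.sum_add_distrib, ← Finset.mul_sum, quadraticChar_sum_zero hF]
  simp

/-- the polynomial is not a constant times a square -/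
lemma cub_nsq (d : F) (c : F) (h : F[X]) : cub d ≠ C c * h ^ 2 := by
  intro he
  have h1 := congrArg natDegree he
  rw [cub_natDegree] at h1
  have hc : c ≠ 0 := by
    rintro rfl
    rw [map_zero, zero_mul, natDegree_zero] at h1
    omega
  rw [natDegree_C_mul hc, natDegree_pow] at h1
  omega

lemma A_high (hF : ringChar F ≠ 2) (d : F) (n : ℕ) (hn : 3 ≤ n) : A (cub d) n = 0 := by
  obtain ⟨r, hr, hl⟩ := exists_r hF (cub_monic d) (by rw [cub_natDegree]; norm_num) (cub_nsq d)
  exact A_eq_zero (cub d) r (cub_monic d) hr hl n (by rw [cub_natDegree]; exact hn)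

lemma T_luc (hF : ringChar F ≠ 2) (d : F) (hd : d ≠ 0) : ∀ n : ℕ,
    T (cub d) (n + 1) = - luc (- T (cub d) 1) (Fintype.card F) (n + 1)
  | 0 => by simp [luc]
  | 1 => by
    have h1 := n_mul_A (cub d) 1
    have h2 := n_mul_A (cub d) 2
    rw [Finset.sum_Icc_succ_top (by norm_num), Finset.Icc_self, Finset.sum_singleton, A_two hF d hd] at h2
    rw [Finset.Icc_self, Finset.sum_singleton] at h1
    norm_num [A_zero] at h1 h2
    rw [h1] at h2
    simp only [luc]
    linear_combination -h2
  | n + 2 => by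
    have h1 := n_mul_A (cub d) 1
    rw [Finset.Icc_self, Finset.sum_singleton] at h1
    norm_num [A_zero] at h1
    have h2 := n_mul_A (cub d) (n + 3)
    rw [A_high hF d _ (by omega), mul_zero] at h2
    have h3 : ∑ m ∈ Icc 1 (n + 3), A (cub d) (n + 3 - m) * T (cub d) m =
        A (cub d) 0 * T (cub d) (n + 3) + A (cub d) 1 * T (cub d) (n + 2) + A (cub d) 2 * T (cub d) (n + 1) := by
      rw [Finset.sum_Icc_succ_top (by omega), Finset.sum_Icc_succ_top (by omega), Finset.sum_Icc_succ_top (by omega)]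
      have h4 : ∑ m ∈ Icc 1 n, A (cub d) (n + 3 - m) * T (cub d) m = 0 := by
        apply Finset.sum_eq_zero
        intro m hm
        rw [mem_Icc] at hm
        rw [A_high hF d _ (by omega), zero_mul]
      rw [h4]
      have e1 : n + 3 - (n + 1) = 2 := by omega
      have e2 : n + 3 - (n + 1 + 1) = 1 := by omega
      have e3 : n + 3 - (n + 2 + 1) = 0 := by omega
      rw [e1, e2, e3]
      ring
    rw [h3, A_zero, h1, A_two hF d hd, T_luc hF d hd n, T_luc hF d hd (n + 1)] at h2
    have e : luc (- T (cub d) 1) (Fintype.card F) (n + 3) = (- T (cub d) 1) * luc (- T (cub d) 1) (Fintype.card F) (n + 2) -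
      (Fintype.card F) * luc (- T (cub d) 1) (Fintype.card F) (n + 1) := rfl
    show T (cub d) (n + 3) = - luc (- T (cub d) 1) (Fintype.card F) (n + 3)
    rw [e]
    linear_combination -h2

end

/-- points on `y² = g(x)` -/
lemma card_points {k : Type*} [Field k] [Fintype k] [DecidableEq k] (hk : ringChar k ≠ 2) (g : k → k) :
    (Nat.card {x : k × k // x.2 ^ 2 = g x.1} : ℤ) = Fintype.card k + ∑ x : k, quadraticChar k (g x) := by
  classical
  have e : {x : k × k // x.2 ^ 2 = g x.1} ≃ Σ x : k, {y : k // y ^ 2 = g x} :=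
    { toFun := fun x => ⟨x.1.1, ⟨x.1.2, x.2⟩⟩
      invFun := fun x => ⟨(x.1, x.2.1), x.2.2⟩
      left_inv := fun _ => rfl
      right_inv := fun _ => rfl }
  rw [Nat.card_congr e, Nat.card_eq_fintype_card, Fintype.card_sigma]
  push_cast
  have h1 : ∀ x : k, (Fintype.card {y : k // y ^ 2 = g x} : ℤ) = quadraticChar k (g x) + 1 := by
    intro x
    rw [← quadraticChar_card_sqrts hk (g x)]
    congr 1
    rw [Set.toFinset_card]
    exact Fintype.card_congr (Equiv.refl _)
  simp_rw [h1]
  rw [Finset.sum_add_distrib]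
  simp
  ring

/-- the number of points over an extension -/
theorem points_ext {p : ℕ} [Fact p.Prime] (hp2 : p ≠ 2) (D : ℕ) (hD : ¬ p ∣ D) {k : Type} [Field k] [Fintype k]
    [Algebra (ZMod p) k] :
    (Fintype.card k : ℤ) - Nat.card {x : k × k // x.2 ^ 2 = x.1 ^ 3 - (D : k) ^ 2 * x.1} =
      luc ((p : ℤ) - Nat.card {x : ZMod p × ZMod p // x.2 ^ 2 = x.1 ^ 3 - (D : ZMod p) ^ 2 * x.1}) p
        (Module.finrank (ZMod p) k) := by
  classical
  have hF : ringChar (ZMod p) ≠ 2 := by
    rw [ZMod.ringChar_zmod_n]; exact hp2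
  have hk : ringChar k ≠ 2 := by
    rwa [← Algebra.ringChar_eq (ZMod p) k]
  have hd : (D : ZMod p) ≠ 0 := by
    rw [Ne, ZMod.natCast_eq_zero_iff]; exact hD
  have key : ∀ {E : Type _} [Field E] [Fintype E] [Algebra (ZMod p) E] [DecidableEq E],
      (Fintype.card E : ℤ) - Nat.card {x : E × E // x.2 ^ 2 = x.1 ^ 3 - (D : E) ^ 2 * x.1} =
      - T (cub (D : ZMod p)) (Module.finrank (ZMod p) E) := by
    intro E _ _ _ _
    have hE : ringChar E ≠ 2 := by
      rwa [← Algebra.ringChar_eq (ZMod p) E]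
    rw [card_points hE (fun x => x ^ 3 - (D : E) ^ 2 * x), T_eq_sum (E := E) hF]
    have : ∀ x : E, aeval x (cub (D : ZMod p)) = x ^ 3 - (D : E) ^ 2 * x := by
      intro x
      rw [cub_eq]
      simp
    simp_rw [this]
    ring
  have h1 := key (E := ZMod p)
  rw [Module.finrank_self, ZMod.card] at h1
  rw [key (E := k), h1]
  have hpos : 0 < Module.finrank (ZMod p) k := Module.finrank_pos
  obtain ⟨n, hn⟩ := Nat.exists_eq_succ_of_ne_zero hpos.ne'
  rw [hn, Nat.succ_eq_add_one, T_luc hF _ hd n, ZMod.card]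
  ring

end Pool.Agent.H82R3.EK
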