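import Pool.Agent.H82R3.EK.Chars
import Pool.Agent.H921R2.TatePole.Base

/-!
Places of the cyclotomic fields above a rational prime.
-/

set_option autoImplicit false

namespace Pool.Agent.H82R3.EK

open NumberField IsDedekindDomain Ideal
open Pool.Agent.H921R2.TatePole

section
variable (K : Type) [Field K] [NumberField K]

lemma liesOver_of_mem {p : ℕ} (hp : p.Prime) (v : HeightOneSpectrum (𝓞 K)) (h : ((p : ℕ) : 𝓞 K) ∈ v.asIdeal) :
    v.asIdeal.LiesOver (Ideal.span {(p : ℤ)}) := by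
  have : Fact p.Prime := ⟨hp⟩
  constructor
  have hmax : (Ideal.span {(p : ℤ)}).IsMaximal := Int.ideal_span_isMaximal_of_prime p
  refine hmax.eq_of_le ?_ ?_
  · exact (inferInstance : (v.asIdeal.under ℤ).IsPrime).ne_top
  · rw [Ideal.span_singleton_le_iff_mem, Ideal.mem_comap]
    simpa using h

lemma below_eq_of_mem {p : Nat.Primes} (v : HeightOneSpectrum (𝓞 K)) (h : (((p : ℕ) : ℕ) : 𝓞 K) ∈ v.asIdeal) :
    below v = p := by
  have h1 := (nm_eq v).2.2
  by_contra hne
  have hcop : Nat.Coprime (below v : ℕ) (p : ℕ) :=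
    (Nat.coprime_primes (below v).2 p.2).2 (fun h => hne (Subtype.ext h))
  have h2 := Nat.isCoprime_iff_coprime.2 hcop
  obtain ⟨a, b, hab⟩ := h2
  apply v.isPrime.ne_top
  rw [Ideal.eq_top_iff_one]
  have h3 : ((a : 𝓞 K) * ((below v : ℕ) : 𝓞 K) + (b : 𝓞 K) * ((p : ℕ) : 𝓞 K)) = 1 := by
    have := congrArg (Int.cast : ℤ → 𝓞 K) hab
    push_cast at this
    exact this
  rw [← h3]
  exact v.asIdeal.add_mem (v.asIdeal.mul_mem_left _ h1) (v.asIdeal.mul_mem_left _ h)

lemma card_fiber (p : Nat.Primes) :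
    Fintype.card {v : HeightOneSpectrum (𝓞 K) // below v = p} =
      (Ideal.primesOver (Ideal.span {((p : ℕ) : ℤ)}) (𝓞 K)).ncard := by
  rw [← Nat.card_eq_fintype_card, ← Nat.card_coe_set_eq]
  have : Fact (p : ℕ).Prime := ⟨p.2⟩
  refine Nat.card_congr
    { toFun := fun v => ⟨v.1.asIdeal, v.1.isPrime, liesOver_of_mem K p.2 v.1 (by
        have h := (nm_eq v.1).2.2
        rwa [v.2] at h)⟩
      invFun := fun P => ⟨⟨P.1, P.2.1, ?_⟩, ?_⟩
      left_inv := fun v => rfl
      right_inv := fun P => rfl }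
  · have h2 := P.2.2
    intro hbot
    have h3 : (((p : ℕ) : ℤ)) ∈ P.1.under ℤ := by
      rw [← h2.over]
      exact Ideal.mem_span_singleton_self _
    rw [hbot, Ideal.mem_comap, Ideal.mem_bot] at h3
    have h4 : ((p : ℕ) : 𝓞 K) ≠ 0 := Nat.cast_ne_zero.2 p.2.ne_zero
    exact h4 (by simpa using h3)
  · apply below_eq_of_mem
    have h2 := P.2.2
    have h3 : (((p : ℕ) : ℤ)) ∈ P.1.under ℤ := by
      rw [← h2.over]
      exact Ideal.mem_span_singleton_self _
    rw [Ideal.mem_comap] at h3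
    simpa using h3

variable (q : ℕ) [NeZero q] [hK : IsCyclotomicExtension {q} ℚ K]

lemma deg_and_count (p : Nat.Primes) (m k : ℕ) [NeZero m] (hq : q = (p : ℕ) ^ k * m) (hm : ¬ (p : ℕ) ∣ m) :
    (∀ v : HeightOneSpectrum (𝓞 K), below v = p → deg v = orderOf ((p : ℕ) : ZMod m)) ∧
    Fintype.card {v : HeightOneSpectrum (𝓞 K) // below v = p} = Nat.totient m / orderOf ((p : ℕ) : ZMod m) := by
  have : Fact (p : ℕ).Prime := ⟨p.2⟩
  have : IsGalois ℚ K := IsCyclotomicExtension.isGalois {q} ℚ K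
  have hpc : Nat.Coprime (p : ℕ) m := (Nat.Prime.coprime_iff_not_dvd p.2).2 hm
  have hpos : 0 < orderOf ((p : ℕ) : ZMod m) := by
    have hu := (ZMod.isUnit_iff_coprime (p : ℕ) m).2 hpc
    obtain ⟨u, hu⟩ := hu
    rw [← hu, orderOf_units]
    exact orderOf_pos u
  constructor
  · intro v hv
    have := liesOver_of_mem K p.2 v (hv ▸ (nm_eq v).2.2)
    have := v.isPrime
    have h1 := Ideal.pow_inertiaDeg (p : ℕ) v.asIdeal
    have h2 := (nm_eq v).1
    rw [hv] at h2
    have h3 : (p : ℕ) ^ (v.asIdeal.inertiaDeg ℤ) = (p : ℕ) ^ deg v := by rw [h1, ← h2]; rfl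
    have h4 := Nat.pow_right_injective p.2.two_le h3
    rw [← h4]
    rcases k with _ | k
    · rw [pow_zero, one_mul] at hq
      subst hq
      exact IsCyclotomicExtension.Rat.inertiaDeg_eq_of_not_dvd (p : ℕ) K v.asIdeal hm
    · exact IsCyclotomicExtension.Rat.inertiaDeg_eq q K v.asIdeal hq hm
  · rw [card_fiber]
    have h1 := Ideal.ncard_primesOver_mul_ramificationIdxIn_mul_inertiaDegIn (Ideal.span {((p : ℕ) : ℤ)}) (𝓞 K) Gal(K/ℚ)
    rw [IsGalois.card_aut_eq_finrank, IsCyclotomicExtension.Rat.finrank q K] at h1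
    have h2 : (Ideal.primesOver (Ideal.span {((p : ℕ) : ℤ)}) (𝓞 K)).ncard * orderOf ((p : ℕ) : ZMod m) = Nat.totient m := by
      rcases k with _ | k
      · rw [pow_zero, one_mul] at hq
        subst hq
        rw [IsCyclotomicExtension.Rat.ramificationIdxIn_eq_of_not_dvd (p : ℕ) K hm,
          IsCyclotomicExtension.Rat.inertiaDegIn_eq_of_not_dvd (p : ℕ) K hm, one_mul] at h1
        exact h1
      · rw [IsCyclotomicExtension.Rat.ramificationIdxIn_eq q K hq hm,
          IsCyclotomicExtension.Rat.inertiaDegIn_eq q K hq hm] at h1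
        have h3 : Nat.totient q = (p : ℕ) ^ k * ((p : ℕ) - 1) * Nat.totient m := by
          have h4 : Nat.totient q = Nat.totient ((p : ℕ) ^ (k + 1) * m) := by congr 1
          rw [h4, Nat.totient_mul (hpc.pow_left (k + 1)), Nat.totient_prime_pow_succ p.2]
        rw [h3] at h1
        have h5 : 0 < (p : ℕ) ^ k * ((p : ℕ) - 1) := by
          have := p.2.two_le
          exact Nat.mul_pos (pow_pos p.2.pos _) (by omega)
        apply Nat.eq_of_mul_eq_mul_left h5
        rw [← h1]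
        ring
    rw [← h2, Nat.mul_div_cancel _ hpos]

end

end Pool.Agent.H82R3.EK
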