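import Pool.Agent.H82R3.EK.Fiber
import Pool.Agent.H385R2.EcD4

/-!
Local Euler factors of `y² = x³ - D² x` over a number field.
-/

set_option autoImplicit false

namespace Pool.Agent.H82R3.EK

open NumberField IsDedekindDomain
open Pool.Agent.H921R2.TatePole

/-- the curve `y² = x³ - D² x` -/
noncomputable def crv (D : ℕ) (R : Type) [CommRing R] : WeierstrassCurve R := ⟨0, 0, 0, -(D : R) ^ 2, 0⟩

lemma crv_Δ (D : ℕ) (R : Type) [CommRing R] : (crv D R).Δ = (2 : R) ^ 6 * (D : R) ^ 6 := by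
  unfold crv
  simp only [WeierstrassCurve.Δ, WeierstrassCurve.b₂, WeierstrassCurve.b₄, WeierstrassCurve.b₆, WeierstrassCurve.b₈]
  ring

/-- The local factor at `v` of the Weierstrass equation `W` over the ring of integers. -/
noncomputable def factor {K : Type} [Field K] [NumberField K] (W : WeierstrassCurve (𝓞 K)) (s : ℂ)
    (v : HeightOneSpectrum (𝓞 K)) : ℂ :=
  (1 - ((((Ideal.absNorm v.asIdeal : ℕ) : ℤ) -
          ((Nat.card {p : (𝓞 K ⧸ v.asIdeal) × (𝓞 K ⧸ v.asIdeal) //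
            p.2 ^ 2 + Ideal.Quotient.mk v.asIdeal W.a₁ * p.1 * p.2
              + Ideal.Quotient.mk v.asIdeal W.a₃ * p.2
            = p.1 ^ 3 + Ideal.Quotient.mk v.asIdeal W.a₂ * p.1 ^ 2
              + Ideal.Quotient.mk v.asIdeal W.a₄ * p.1
              + Ideal.Quotient.mk v.asIdeal W.a₆} : ℕ) : ℤ) : ℤ) : ℂ)
          * ((Ideal.absNorm v.asIdeal : ℕ) : ℂ) ^ (-s)
      + (open Classical in if W.Δ ∈ v.asIdeal then (0 : ℂ) else 1)
          * ((Ideal.absNorm v.asIdeal : ℕ) : ℂ) ^ (1 - 2 * s))⁻¹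

lemma aD_eq (D p : ℕ) [Fact p.Prime] : H385.aD D p =
    (p : ℤ) - Nat.card {x : ZMod p × ZMod p // x.2 ^ 2 = x.1 ^ 3 - (D : ZMod p) ^ 2 * x.1} := by
  classical
  unfold H385.aD
  congr 2
  rw [Nat.card_eq_fintype_card, Fintype.card_subtype]
  refine Finset.card_bij' (fun xy _ => ((xy.1 : ZMod p), (xy.2 : ZMod p))) (fun z _ => (z.1.val, z.2.val)) ?_ ?_ ?_ ?_
  · intro xy hxy
    rw [Finset.mem_filter] at hxy ⊢
    refine ⟨Finset.mem_univ _, ?_⟩
    have h := (ZMod.intCast_zmod_eq_zero_iff_dvd _ p).2 hxy.2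
    push_cast at h
    show ((xy.2 : ZMod p)) ^ 2 = (xy.1 : ZMod p) ^ 3 - (D : ZMod p) ^ 2 * (xy.1 : ZMod p)
    linear_combination h
  · intro z hz
    rw [Finset.mem_filter] at hz ⊢
    refine ⟨Finset.mem_product.2 ⟨Finset.mem_range.2 (ZMod.val_lt _), Finset.mem_range.2 (ZMod.val_lt _)⟩, ?_⟩
    rw [← ZMod.intCast_zmod_eq_zero_iff_dvd _ p]
    push_cast
    rw [ZMod.natCast_zmod_val, ZMod.natCast_zmod_val]
    have := hz.2
    linear_combination this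
  · intro xy hxy
    rw [Finset.mem_filter, Finset.mem_product, Finset.mem_range, Finset.mem_range] at hxy
    ext
    · exact ZMod.val_cast_of_lt hxy.1.1
    · exact ZMod.val_cast_of_lt hxy.1.2
  · intro z _
    ext <;> simp

section
variable {K : Type} [Field K] [NumberField K]

lemma count_simp (D : ℕ) (v : HeightOneSpectrum (𝓞 K)) :
    Nat.card {p : (𝓞 K ⧸ v.asIdeal) × (𝓞 K ⧸ v.asIdeal) //
            p.2 ^ 2 + Ideal.Quotient.mk v.asIdeal (crv D (𝓞 K)).a₁ * p.1 * p.2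
              + Ideal.Quotient.mk v.asIdeal (crv D (𝓞 K)).a₃ * p.2
            = p.1 ^ 3 + Ideal.Quotient.mk v.asIdeal (crv D (𝓞 K)).a₂ * p.1 ^ 2
              + Ideal.Quotient.mk v.asIdeal (crv D (𝓞 K)).a₄ * p.1
              + Ideal.Quotient.mk v.asIdeal (crv D (𝓞 K)).a₆} =
    Nat.card {x : (𝓞 K ⧸ v.asIdeal) × (𝓞 K ⧸ v.asIdeal) // x.2 ^ 2 = x.1 ^ 3 - (D : 𝓞 K ⧸ v.asIdeal) ^ 2 * x.1} := by
  apply Nat.card_congr
  refine Equiv.subtypeEquivRight (fun x => ?_)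
  unfold crv
  simp only [map_zero, zero_mul, add_zero, map_neg, map_pow, map_natCast]
  rw [show -(D : 𝓞 K ⧸ v.asIdeal) ^ 2 * x.1 = -((D : 𝓞 K ⧸ v.asIdeal) ^ 2 * x.1) by ring, ← sub_eq_add_neg]

/-- good places -/
lemma trace_good {D : ℕ} (v : HeightOneSpectrum (𝓞 K)) (hv : ¬ (below v : ℕ) ∣ 2 * D) :
    ((Ideal.absNorm v.asIdeal : ℕ) : ℤ) -
      Nat.card {x : (𝓞 K ⧸ v.asIdeal) × (𝓞 K ⧸ v.asIdeal) // x.2 ^ 2 = x.1 ^ 3 - (D : 𝓞 K ⧸ v.asIdeal) ^ 2 * x.1} =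
      luc (H385.aD D (below v)) (below v : ℕ) (deg v) := by
  have hmax : v.asIdeal.IsMaximal := v.isPrime.isMaximal v.ne_bot
  letI : Field (𝓞 K ⧸ v.asIdeal) := Ideal.Quotient.field v.asIdeal
  have : Finite (𝓞 K ⧸ v.asIdeal) := Ideal.finiteQuotientOfFreeOfNeBot v.asIdeal v.ne_bot
  letI : Fintype (𝓞 K ⧸ v.asIdeal) := Fintype.ofFinite _
  obtain ⟨h1, h2, h3⟩ := nm_eq v
  have : Fact (below v : ℕ).Prime := ⟨(below v).2⟩
  have : CharP (𝓞 K ⧸ v.asIdeal) (below v : ℕ) := by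
    have : ringChar (𝓞 K ⧸ v.asIdeal) = (below v : ℕ) := by
      apply CharP.ringChar_of_prime_eq_zero (below v).2
      have := Ideal.Quotient.eq_zero_iff_mem.2 h3
      simpa using this
    rw [← this]; infer_instance
  letI : Algebra (ZMod (below v : ℕ)) (𝓞 K ⧸ v.asIdeal) := ZMod.algebra _ _
  have hp2 : (below v : ℕ) ≠ 2 := by
    intro h; apply hv; rw [h]; exact dvd_mul_right 2 D
  have hpD : ¬ (below v : ℕ) ∣ D := fun h => hv (h.mul_left 2)
  have hcard : Ideal.absNorm v.asIdeal = Fintype.card (𝓞 K ⧸ v.asIdeal) := by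
    rw [Ideal.absNorm_apply, Submodule.cardQuot_apply, Nat.card_eq_fintype_card]
  have key := points_ext hp2 D hpD (k := 𝓞 K ⧸ v.asIdeal)
  have hfin : Module.finrank (ZMod (below v : ℕ)) (𝓞 K ⧸ v.asIdeal) = deg v := by
    have h4 := Module.card_eq_pow_finrank (K := ZMod (below v : ℕ)) (V := 𝓞 K ⧸ v.asIdeal)
    rw [ZMod.card, ← hcard] at h4
    have h5 : (below v : ℕ) ^ (Module.finrank (ZMod (below v : ℕ)) (𝓞 K ⧸ v.asIdeal)) = (below v : ℕ) ^ deg v := by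
      rw [← h4, ← h1]; rfl
    exact Nat.pow_right_injective (below v).2.two_le h5
  rw [hcard, aD_eq, ← hfin]
  exact key

/-- Hasse's bound at the good places -/
lemma trace_bound {D : ℕ} (v : HeightOneSpectrum (𝓞 K)) (hv : ¬ (below v : ℕ) ∣ 2 * D) :
    |(((Ideal.absNorm v.asIdeal : ℕ) : ℤ) -
      Nat.card {x : (𝓞 K ⧸ v.asIdeal) × (𝓞 K ⧸ v.asIdeal) // x.2 ^ 2 = x.1 ^ 3 - (D : 𝓞 K ⧸ v.asIdeal) ^ 2 * x.1} : ℤ)| ≤
      2 * Real.sqrt (nm v) := by
  classical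
  have hmax : v.asIdeal.IsMaximal := v.isPrime.isMaximal v.ne_bot
  letI : Field (𝓞 K ⧸ v.asIdeal) := Ideal.Quotient.field v.asIdeal
  have : Finite (𝓞 K ⧸ v.asIdeal) := Ideal.finiteQuotientOfFreeOfNeBot v.asIdeal v.ne_bot
  letI : Fintype (𝓞 K ⧸ v.asIdeal) := Fintype.ofFinite _
  obtain ⟨h1, h2, h3⟩ := nm_eq v
  have hring : ringChar (𝓞 K ⧸ v.asIdeal) = (below v : ℕ) := by
    apply CharP.ringChar_of_prime_eq_zero (below v).2
    have := Ideal.Quotient.eq_zero_iff_mem.2 h3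
    simpa using this
  have hp2 : (below v : ℕ) ≠ 2 := by
    intro h; apply hv; rw [h]; exact dvd_mul_right 2 D
  have hE : ringChar (𝓞 K ⧸ v.asIdeal) ≠ 2 := by rw [hring]; exact hp2
  have hcard : Ideal.absNorm v.asIdeal = Fintype.card (𝓞 K ⧸ v.asIdeal) := by
    rw [Ideal.absNorm_apply, Submodule.cardQuot_apply, Nat.card_eq_fintype_card]
  have h4 := Pool.Agent.H341R2.Sharp.weil_sharp_monic hE (cub_monic (D : 𝓞 K ⧸ v.asIdeal))
    (by rw [cub_natDegree]; norm_num) (cub_nsq _)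
  rw [cub_natDegree, ← hcard] at h4
  have h5 : ∀ x : 𝓞 K ⧸ v.asIdeal, (cub (D : 𝓞 K ⧸ v.asIdeal)).eval x = x ^ 3 - (D : 𝓞 K ⧸ v.asIdeal) ^ 2 * x := by
    intro x
    rw [cub_eq]
    simp
  simp_rw [h5] at h4
  rw [card_points hE (fun x => x ^ 3 - (D : 𝓞 K ⧸ v.asIdeal) ^ 2 * x), hcard]
  push_cast
  rw [show (Fintype.card (𝓞 K ⧸ v.asIdeal) : ℝ) - (Fintype.card (𝓞 K ⧸ v.asIdeal) +
    ∑ x : 𝓞 K ⧸ v.asIdeal, (quadraticChar (𝓞 K ⧸ v.asIdeal) (x ^ 3 - (D : 𝓞 K ⧸ v.asIdeal) ^ 2 * x) : ℝ)) =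
    - ∑ x : 𝓞 K ⧸ v.asIdeal, (quadraticChar (𝓞 K ⧸ v.asIdeal) (x ^ 3 - (D : 𝓞 K ⧸ v.asIdeal) ^ 2 * x) : ℝ) by ring, abs_neg]
  refine h4.trans (le_of_eq ?_)
  unfold nm
  norm_num

/-- bad places: the number of affine points is `N v` -/
lemma trace_bad {D : ℕ} (v : HeightOneSpectrum (𝓞 K)) (hv : (below v : ℕ) ∣ 2 * D) :
    ((Ideal.absNorm v.asIdeal : ℕ) : ℤ) -
      Nat.card {x : (𝓞 K ⧸ v.asIdeal) × (𝓞 K ⧸ v.asIdeal) // x.2 ^ 2 = x.1 ^ 3 - (D : 𝓞 K ⧸ v.asIdeal) ^ 2 * x.1} = 0 := by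
  classical
  have hmax : v.asIdeal.IsMaximal := v.isPrime.isMaximal v.ne_bot
  letI : Field (𝓞 K ⧸ v.asIdeal) := Ideal.Quotient.field v.asIdeal
  have : Finite (𝓞 K ⧸ v.asIdeal) := Ideal.finiteQuotientOfFreeOfNeBot v.asIdeal v.ne_bot
  letI : Fintype (𝓞 K ⧸ v.asIdeal) := Fintype.ofFinite _
  obtain ⟨h1, h2, h3⟩ := nm_eq v
  have hring : ringChar (𝓞 K ⧸ v.asIdeal) = (below v : ℕ) := by
    apply CharP.ringChar_of_prime_eq_zero (below v).2
    have := Ideal.Quotient.eq_zero_iff_mem.2 h3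
    simpa using this
  have hcard : Ideal.absNorm v.asIdeal = Nat.card (𝓞 K ⧸ v.asIdeal) := by
    rw [Ideal.absNorm_apply, Submodule.cardQuot_apply]
  rw [sub_eq_zero, hcard]
  congr 1
  by_cases h2' : (below v : ℕ) = 2
  · -- characteristic two
    have hch : CharP (𝓞 K ⧸ v.asIdeal) 2 := by
      rw [← h2', ← hring]; infer_instance
    have hbij : Function.Bijective (fun y : 𝓞 K ⧸ v.asIdeal => y ^ 2) := by
      have hinj : Function.Injective (fun y : 𝓞 K ⧸ v.asIdeal => y ^ 2) := by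
        intro a b hab
        have : (a - b) ^ 2 = 0 := by
          rw [sub_sq, show a ^ 2 = b ^ 2 from hab]
          have : (2 : 𝓞 K ⧸ v.asIdeal) = 0 := CharTwo.two_eq_zero
          rw [this]
          linear_combination (b ^ 2) * this
        exact sub_eq_zero.1 (pow_eq_zero_iff (two_ne_zero)|>.1 this)
      exact hinj.bijective_of_finite
    refine Nat.card_congr
      { toFun := fun x => ⟨(x, (Equiv.ofBijective _ hbij).symm (x ^ 3 - (D : 𝓞 K ⧸ v.asIdeal) ^ 2 * x)), ?_⟩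
        invFun := fun z => z.1.1
        left_inv := fun x => rfl
        right_inv := fun z => ?_ }
    · exact (Equiv.ofBijective _ hbij).apply_symm_apply _
    · ext
      · rfl
      · apply hbij.1
        show ((Equiv.ofBijective _ hbij).symm (z.1.1 ^ 3 - (D : 𝓞 K ⧸ v.asIdeal) ^ 2 * z.1.1)) ^ 2 = z.1.2 ^ 2
        rw [z.2]
        exact (Equiv.ofBijective _ hbij).apply_symm_apply _
  · have hD0 : (D : 𝓞 K ⧸ v.asIdeal) = 0 := by
      have hpD : (below v : ℕ) ∣ D := by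
        rcases (Nat.Prime.dvd_mul (below v).2).1 hv with h | h
        · exact absurd ((Nat.prime_dvd_prime_iff_eq (below v).2 Nat.prime_two).1 h) h2'
        · exact h
      have hch : CharP (𝓞 K ⧸ v.asIdeal) (below v : ℕ) := by
        rw [← hring]; infer_instance
      exact (CharP.cast_eq_zero_iff (𝓞 K ⧸ v.asIdeal) (below v : ℕ) D).2 hpD
    rw [hD0]
    refine Nat.card_congr
      { toFun := fun t => ⟨(t ^ 2, t ^ 3), by ring⟩
        invFun := fun z => z.1.2 / z.1.1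
        left_inv := fun t => ?_
        right_inv := fun z => ?_ }
    · show t ^ 3 / t ^ 2 = t
      rcases eq_or_ne t 0 with h | h
      · rw [h]; simp
      · field_simp
    · have hz := z.2
      have hz' : z.1.2 ^ 2 = z.1.1 ^ 3 := by rw [hz]; ring
      rcases eq_or_ne z.1.1 0 with h | h
      · have h4 : z.1.2 = 0 := by
          rw [h] at hz'
          have : z.1.2 ^ 2 = 0 := by rw [hz']; ring
          exact pow_eq_zero_iff (two_ne_zero) |>.1 this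
        ext
        · show (z.1.2 / z.1.1) ^ 2 = z.1.1
          rw [h4, h]; simp
        · show (z.1.2 / z.1.1) ^ 3 = z.1.2
          rw [h4]; simp
      · ext
        · show (z.1.2 / z.1.1) ^ 2 = z.1.1
          rw [div_pow, hz']; field_simp
        · show (z.1.2 / z.1.1) ^ 3 = z.1.2
          rw [div_pow, div_eq_iff (pow_ne_zero 3 h), ← hz']; ring

end

end Pool.Agent.H82R3.EK
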