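import Pool.Agent.H82R3.EK.Bounds

/-!
The average over all levels `q`, `X < q ≤ Y`, and all characters mod `q`.
-/

set_option autoImplicit false

open Finset DirichletCharacter
open H370 (zset mult NN Nd Ns)

namespace Pool.Agent.H82R3.EK

lemma rpow_big (c e : ℝ) (he : 0 < e) : ∃ X0 : ℝ, 1 ≤ X0 ∧ ∀ X : ℝ, X0 ≤ X → c ≤ X ^ e := by
  refine ⟨max 1 ((|c| + 1) ^ (1 / e)), le_max_left _ _, fun X hX => ?_⟩
  have h0 : 0 ≤ |c| := abs_nonneg c
  have h1 : (|c| + 1) ^ (1 / e) ≤ X := le_trans (le_max_right _ _) hX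
  have h2 := Real.rpow_le_rpow (by positivity) h1 he.le
  rw [← Real.rpow_mul (by positivity), one_div, inv_mul_cancel₀ he.ne', Real.rpow_one] at h2
  linarith [le_abs_self c]

/-- the window conditions for `(X/m, Y/m)` -/
lemma sub_window (K η X0 : ℝ) (hK : 1 ≤ K) (hη : 0 < η) (hη1 : η ≤ 1) :
    ∃ X1 : ℝ, 1 ≤ X1 ∧ ∀ (X Y m : ℕ) (T : ℝ), X1 ≤ X → 2 * K * X ≤ Y → (Y : ℝ) ≤ (X : ℝ) ^ (1 + η / 3) →
      (Real.log X) ^ 2 ≤ T → T ≤ (X : ℝ) ^ (η / 3) → 1 ≤ m → m ≤ Nat.sqrt X →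
      X0 ≤ ((X / m : ℕ) : ℝ) ∧ K * ((X / m : ℕ) : ℝ) ≤ ((Y / m : ℕ) : ℝ) ∧
      ((Y / m : ℕ) : ℝ) ≤ ((X / m : ℕ) : ℝ) ^ (1 + η) ∧ (Real.log ((X / m : ℕ) : ℝ)) ^ 2 ≤ T ∧
      T ≤ ((X / m : ℕ) : ℝ) ^ η := by
  obtain ⟨X2, hX2, h2⟩ := rpow_big 4 (η / 6) (by positivity)
  refine ⟨max X2 (max ((|X0| + 1) ^ 3) 64), le_trans hX2 (le_max_left _ _), ?_⟩
  intro X Y m T hX hXY hYX hT1 hT2 hm1 hmB
  have c1 : X2 ≤ X := le_trans (le_max_left _ _) hX
  have c2 : (|X0| + 1) ^ 3 ≤ X := le_trans (le_trans (le_max_left _ _) (le_max_right _ _)) hX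
  have c3 : (64 : ℝ) ≤ X := le_trans (le_trans (le_max_right _ _) (le_max_right _ _)) hX
  have hX0' : (0 : ℝ) < X := by linarith
  set B := Nat.sqrt X with hB
  have hBB : B * B ≤ X := Nat.sqrt_le X
  have hBB2 : X < (B + 1) * (B + 1) := Nat.lt_succ_sqrt X
  have hXm : B ≤ X / m := by
    rw [Nat.le_div_iff_mul_le (by omega)]
    exact le_trans (Nat.mul_le_mul_left B hmB) hBB
  set x : ℝ := ((X / m : ℕ) : ℝ) with hx
  have hm0 : (0 : ℝ) < m := by exact_mod_cast (by omega : 0 < m)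
  have hBr : (B : ℝ) ≤ x := by rw [hx]; exact_mod_cast hXm
  have hBB2r : (X : ℝ) < ((B : ℝ) + 1) * (B + 1) := by exact_mod_cast hBB2
  have hB7 : (7 : ℝ) ≤ B := by
    by_contra hcon
    push Not at hcon
    have h3 : B < 7 := by exact_mod_cast hcon
    have h4 : B + 1 ≤ 7 := by omega
    have h5 : ((B : ℝ) + 1) ≤ 7 := by exact_mod_cast h4
    have h6 : (0 : ℝ) ≤ (B : ℝ) + 1 := by positivity
    nlinarith
  -- `x ≥ X^(1/3)`
  have hcube : (X : ℝ) ≤ x ^ 3 := by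
    have h3 : ((B : ℝ) + 1) * (B + 1) ≤ (B : ℝ) ^ 3 := by nlinarith
    have h4 : (B : ℝ) ^ 3 ≤ x ^ 3 := pow_le_pow_left₀ (by positivity) hBr 3
    linarith
  have hx0 : 0 < x := by linarith
  have hx1 : 1 ≤ x := by linarith
  have hxX : x ≤ X / m := Nat.cast_div_le
  have hxX' : x ≤ X := by
    refine hxX.trans ?_
    rw [div_le_iff₀ hm0]
    have : (1 : ℝ) ≤ m := by exact_mod_cast hm1
    nlinarith
  have hxlo : (X : ℝ) / m < x + 1 := by
    rw [div_lt_iff₀ hm0]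
    have := Nat.lt_mul_div_succ X (show 0 < m by omega)
    have h3 : (X : ℝ) < (m : ℝ) * ((X / m : ℕ) + 1) := by exact_mod_cast this
    rw [← hx] at h3
    linarith
  refine ⟨?_, ?_, ?_, ?_, ?_⟩
  · -- X0 ≤ x
    by_contra hcon
    push Not at hcon
    have h3 : x < |X0| + 1 := by linarith [le_abs_self X0]
    have h4 : x ^ 3 < (|X0| + 1) ^ 3 := pow_lt_pow_left₀ h3 hx0.le (by norm_num)
    linarith
  · -- K x ≤ Y/m
    have h3 : (Y : ℝ) / m < ((Y / m : ℕ) : ℝ) + 1 := by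
      rw [div_lt_iff₀ hm0]
      have := Nat.lt_mul_div_succ Y (show 0 < m by omega)
      have h3 : (Y : ℝ) < (m : ℝ) * ((Y / m : ℕ) + 1) := by exact_mod_cast this
      linarith
    have h4 : 2 * K * x ≤ (Y : ℝ) / m := by
      rw [le_div_iff₀ hm0]
      have h5 : x * m ≤ X := by rwa [le_div_iff₀ hm0] at hxX
      have h6 : 0 ≤ 2 * K := by linarith
      calc 2 * K * x * m = 2 * K * (x * m) := by ring
        _ ≤ 2 * K * X := mul_le_mul_of_nonneg_left h5 h6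
        _ ≤ Y := hXY
    have h7 : 1 ≤ K * x := one_le_mul_of_one_le_of_one_le hK hx1
    linarith
  · -- Y/m ≤ x^(1+η)
    have h3 : ((Y / m : ℕ) : ℝ) ≤ (Y : ℝ) / m := Nat.cast_div_le
    have hmX : (m : ℝ) ≤ (X : ℝ) ^ (1 / 2 : ℝ) := by
      rw [← Real.sqrt_eq_rpow]
      apply Real.le_sqrt_of_sq_le
      have h5 : m * m ≤ X := le_trans (Nat.mul_le_mul hmB hmB) hBB
      have h6 : (m : ℝ) * m ≤ X := by exact_mod_cast h5
      rw [sq]; exact h6
    have hx2 : (X : ℝ) / m ≤ 2 * x := by linarith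
    have hXm0 : 0 < (X : ℝ) / m := by positivity
    have h4 : ((X : ℝ) / m) ^ (1 + η) ≤ (2 * x) ^ (1 + η) := Real.rpow_le_rpow hXm0.le hx2 (by linarith)
    rw [Real.mul_rpow (by norm_num) hx0.le] at h4
    have h5 : (2 : ℝ) ^ (1 + η) ≤ 4 := by
      calc (2 : ℝ) ^ (1 + η) ≤ (2 : ℝ) ^ (2 : ℝ) := Real.rpow_le_rpow_of_exponent_le (by norm_num) (by linarith)
        _ = 4 := by norm_num
    have h6 : ((X : ℝ) / m) ^ (1 + η) = (X : ℝ) ^ (1 + η) / ((m : ℝ) * (m : ℝ) ^ η) := by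
      rw [Real.div_rpow hX0'.le hm0.le, Real.rpow_add hm0, Real.rpow_one]
    have h7 : (m : ℝ) ^ η ≤ (X : ℝ) ^ (η / 2) := by
      have := Real.rpow_le_rpow hm0.le hmX hη.le
      rw [← Real.rpow_mul hX0'.le] at this
      rwa [show 1 / 2 * η = η / 2 by ring] at this
    have h8 : (4 : ℝ) ≤ (X : ℝ) ^ (η / 6) := h2 X c1
    have h9 : (Y : ℝ) * (4 * (m : ℝ) ^ η) ≤ (X : ℝ) ^ (1 + η) := by
      calc (Y : ℝ) * (4 * (m : ℝ) ^ η) ≤ (X : ℝ) ^ (1 + η / 3) * ((X : ℝ) ^ (η / 6) * (X : ℝ) ^ (η / 2)) := by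
            apply mul_le_mul hYX _ (by positivity) (by positivity)
            exact mul_le_mul h8 h7 (by positivity) (by positivity)
        _ = (X : ℝ) ^ (1 + η) := by
            rw [← Real.rpow_add hX0', ← Real.rpow_add hX0']
            congr 1
            ring
    have h10 : (Y : ℝ) / m * 4 ≤ ((X : ℝ) / m) ^ (1 + η) := by
      rw [h6, le_div_iff₀ (by positivity)]
      have : (Y : ℝ) / m * 4 * (m * (m : ℝ) ^ η) = Y * (4 * (m : ℝ) ^ η) := by field_simp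
      rw [this]; exact h9
    have h11 : (2 : ℝ) ^ (1 + η) * x ^ (1 + η) ≤ 4 * x ^ (1 + η) :=
      mul_le_mul_of_nonneg_right h5 (by positivity)
    linarith
  · refine le_trans ?_ hT1
    apply pow_le_pow_left₀ (Real.log_nonneg hx1)
    exact Real.log_le_log hx0 hxX'
  · refine hT2.trans ?_
    calc (X : ℝ) ^ (η / 3) ≤ (x ^ 3) ^ (η / 3) := Real.rpow_le_rpow hX0'.le hcube (by positivity)
      _ = x ^ η := by
          rw [← Real.rpow_natCast, ← Real.rpow_mul hx0.le]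
          congr 1
          push_cast; ring

lemma fam_ge {f : (q : ℕ) → DirichletCharacter ℂ q → ℝ} {c : ℝ} {M X Y : ℕ} (hc : 0 ≤ c)
    (hf : ∀ d : ℕ, X < d → d ≤ Y → Nat.Coprime d M → ∀ χ : DirichletCharacter ℂ d, χ.IsPrimitive → c ≤ f d χ) :
    c * H385.primFamM M X Y (fun _ _ => 1) ≤ H385.primFamM M X Y f := by
  classical
  unfold H385.primFamM
  rw [Finset.mul_sum]
  apply Finset.sum_le_sum
  intro d hd
  rw [mem_filter, mem_Ioc] at hd
  have : NeZero d := ⟨by omega⟩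
  rw [finsum_eq_sum_of_fintype, finsum_eq_sum_of_fintype, ← mul_assoc, mul_comm c, mul_assoc, Finset.mul_sum]
  apply mul_le_mul_of_nonneg_left _ (by positivity)
  apply Finset.sum_le_sum
  intro χ _
  rw [mul_one]
  exact hf d hd.1.1 hd.1.2 hd.2 χ.1 χ.2

/-- the average over all characters of level `q` -/
theorem avg_main (D : ℕ) (hD : Odd D) (hsf : Squarefree D) :
    ∃ (L : (q : ℕ) → DirichletCharacter ℂ q → ℂ → ℂ) (A : ℝ), 1 ≤ A ∧
      (∀ (q : ℕ) (χ : DirichletCharacter ℂ q), 1 ≤ q → Nat.Coprime q (2 * D) → χ.IsPrimitive →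
        Differentiable ℂ (L q χ) ∧ (∀ s : ℂ, 1 < s.re →
          HasProd (fun p : Nat.Primes => H385.eulD D q χ s p) (L q χ s)) ∧
        ∃ a : ℕ → ℂ, H385.GoodD 2 A ((q * D : ℕ) : ℝ) (L q χ) a) ∧
      ∃ K η X0 : ℝ, 1 ≤ K ∧ 0 < η ∧ 1 ≤ X0 ∧
        ∀ (X Y : ℕ) (T : ℝ), X0 ≤ X → K * X ≤ Y → (Y : ℝ) ≤ (X : ℝ) ^ (1 + η) →
        (Real.log X) ^ 2 ≤ T → T ≤ (X : ℝ) ^ η →
        T ≤ ∑ q ∈ (Finset.Ioc X Y).filter (fun q => Nat.Coprime q (2 * D)),
            (1 / (q : ℝ) ^ 2) * SS (fun q χ => (NN (L q χ) T (2 * T) : ℝ)) q ∧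
        0.672 * ∑ q ∈ (Finset.Ioc X Y).filter (fun q => Nat.Coprime q (2 * D)),
            (1 / (q : ℝ) ^ 2) * SS (fun q χ => (NN (L q χ) T (2 * T) : ℝ)) q ≤
          ∑ q ∈ (Finset.Ioc X Y).filter (fun q => Nat.Coprime q (2 * D)),
            (1 / (q : ℝ) ^ 2) * SS (fun q χ => (Ns (L q χ) T (2 * T) : ℝ)) q := by
  classical
  obtain ⟨L, A, hA, hL, K0, η0, X00, hK0, hη0, hX00, hW⟩ := ec_pack D hD hsf
  refine ⟨L, A, hA, hL, ?_⟩
  have hD1 : 1 ≤ D := hD.pos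
  have hM : Squarefree (2 * D) := by
    rw [Nat.squarefree_mul (Nat.coprime_two_left.mpr hD)]
    exact ⟨Nat.prime_two.prime.squarefree, hsf⟩
  obtain ⟨CU, hCU, hU⟩ := H385.zcount_long_D 2 A (by norm_num) hA
  obtain ⟨ℓ1, hℓ1, hLow⟩ := lower A hA D hD1
  obtain ⟨Cm, hCm, hmass⟩ := H385.prim_mass_M (2 * D) hM
  have hcM := H385.cM_pos (2 * D) hM
  set η1 : ℝ := min η0 1 with hη1
  have hη1pos : 0 < η1 := lt_min hη0 one_pos
  have hη1le : η1 ≤ 1 := min_le_right _ _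
  obtain ⟨X1, hX1, hsub⟩ := sub_window K0 η1 X00 hK0 hη1pos hη1le
  obtain ⟨ℓ2, hℓ2, hexp⟩ := exp_big (48000 * CU)
  set K1 : ℝ := max (2 * K0) (Real.exp ((Cm + 1) / H385.cM (2 * D))) with hK1
  refine ⟨K1, η1 / 3, max X1 (max (Real.exp (max (max ℓ1 ℓ2) 2)) (2 * D)), ?_, by positivity, le_trans hX1 (le_max_left _ _), ?_⟩
  · exact le_trans (by linarith) (le_max_left _ _)
  intro X Y T hX hXY hYX hT1 hT2
  set M := 2 * D with hMdef
  have c1 : X1 ≤ X := le_trans (le_max_left _ _) hX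
  have c2 : Real.exp (max (max ℓ1 ℓ2) 2) ≤ X := le_trans (le_trans (le_max_left _ _) (le_max_right _ _)) hX
  have c3 : (2 * D : ℝ) ≤ X := le_trans (le_trans (le_max_right _ _) (le_max_right _ _)) hX
  have hX1' : (1 : ℝ) ≤ X := le_trans hX1 c1
  have hX0' : (0 : ℝ) < X := by linarith
  have hXn : 1 ≤ X := by exact_mod_cast hX1'
  set ℓ := Real.log X with hℓ
  have d0 : max (max ℓ1 ℓ2) 2 ≤ ℓ := by
    rw [hℓ, Real.le_log_iff_exp_le hX0']; exact c2
  have d1 : ℓ1 ≤ ℓ := le_trans (le_trans (le_max_left _ _) (le_max_left _ _)) d0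
  have d2 : ℓ2 ≤ ℓ := le_trans (le_trans (le_max_right _ _) (le_max_left _ _)) d0
  have d3 : 2 ≤ ℓ := le_trans (le_max_right _ _) d0
  have hℓ1' : 1 ≤ ℓ := le_trans hℓ1 d1
  have hK1K : 2 * K0 * X ≤ Y := le_trans (mul_le_mul_of_nonneg_right (le_max_left _ _) hX0'.le) hXY
  have hXYr : (X : ℝ) ≤ Y := by
    have : (1 : ℝ) * X ≤ 2 * K0 * X := mul_le_mul_of_nonneg_right (by linarith) hX0'.le
    linarith
  have hXYn : X ≤ Y := by exact_mod_cast hXYr
  have hY0 : (0 : ℝ) < Y := by linarith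
  have hYX2 : (Y : ℝ) ≤ (X : ℝ) ^ 2 := by
    refine hYX.trans ?_
    calc (X : ℝ) ^ (1 + η1 / 3) ≤ (X : ℝ) ^ (2 : ℝ) := Real.rpow_le_rpow_of_exponent_le hX1' (by linarith)
      _ = (X : ℝ) ^ 2 := by norm_num
  have hTX : T ≤ X := by
    refine hT2.trans ?_
    calc (X : ℝ) ^ (η1 / 3) ≤ (X : ℝ) ^ (1 : ℝ) := Real.rpow_le_rpow_of_exponent_le hX1' (by linarith)
      _ = X := Real.rpow_one _
  have hTlow : 4 ≤ T := le_trans (by nlinarith only [d3]) hT1
  have hT0 : 0 < T := by linarith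
  set n : (q : ℕ) → DirichletCharacter ℂ q → ℝ := fun q χ => (NN (L q χ) T (2 * T) : ℝ) with hn
  set sf : (q : ℕ) → DirichletCharacter ℂ q → ℝ := fun q χ => (Ns (L q χ) T (2 * T) : ℝ) with hsf
  have hn0 : ∀ q χ, 0 ≤ n q χ := fun q χ => Nat.cast_nonneg _
  have hs0 : ∀ q χ, 0 ≤ sf q χ := fun q χ => Nat.cast_nonneg _
  -- the sum over `m`
  rw [window M X Y n, window M X Y sf]
  set mset := (Finset.Icc 1 Y).filter (fun m => Nat.Coprime m M) with hmset
  set B := Nat.sqrt X with hB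
  set P : ((q : ℕ) → DirichletCharacter ℂ q → ℝ) → ℕ → ℝ :=
    fun f m => (1 / (m : ℝ) ^ 2) * H385.primFamM M (X / m) (Y / m) f with hP
  have hP0 : ∀ m, 0 ≤ P n m := fun m => mul_nonneg (by positivity) (fam_nonneg hn0 _ _ _)
  have hPs0 : ∀ m, 0 ≤ P sf m := fun m => mul_nonneg (by positivity) (fam_nonneg hs0 _ _ _)
  have hsplit := Finset.sum_filter_add_sum_filter_not mset (fun m => m ≤ B) (P n)
  -- small `m`
  have hsmall : 0.6725 * ∑ m ∈ mset.filter (fun m => m ≤ B), P n m ≤ ∑ m ∈ mset.filter (fun m => m ≤ B), P sf m := by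
    rw [Finset.mul_sum]
    apply Finset.sum_le_sum
    intro m hm
    rw [mem_filter, hmset, mem_filter, mem_Icc] at hm
    obtain ⟨⟨⟨h1, _⟩, _⟩, h4⟩ := hm
    obtain ⟨w1, w2, w3, w4, w5⟩ := hsub X Y m T c1 hK1K hYX hT1 hT2 h1 h4
    have hx1 : (1 : ℝ) ≤ ((X / m : ℕ) : ℝ) := le_trans hX00 w1
    have w3' : ((Y / m : ℕ) : ℝ) ≤ ((X / m : ℕ) : ℝ) ^ (1 + η0) :=
      w3.trans (Real.rpow_le_rpow_of_exponent_le hx1 (by linarith [min_le_left η0 1]))
    have w5' : T ≤ ((X / m : ℕ) : ℝ) ^ η0 :=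
      w5.trans (Real.rpow_le_rpow_of_exponent_le hx1 (min_le_left η0 1))
    have := hW (X / m) (Y / m) T w1 w2 w3' w4 w5'
    calc 0.6725 * P n m = (1 / (m : ℝ) ^ 2) * (0.6725 * H385.primFamM M (X / m) (Y / m) n) := by rw [hP]; ring
      _ ≤ (1 / (m : ℝ) ^ 2) * H385.primFamM M (X / m) (Y / m) sf := mul_le_mul_of_nonneg_left this (by positivity)
  -- large `m`
  have hlogY : Real.log Y ≤ 2 * ℓ := by
    have := Real.log_le_log hY0 hYX2
    rwa [Real.log_pow] at this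
  have hlogY0 : 0 ≤ Real.log Y := Real.log_nonneg (by linarith)
  have hlogT : Real.log T ≤ ℓ := Real.log_le_log hT0 hTX
  have hD0 : (1 : ℝ) ≤ D := by exact_mod_cast hD1
  have hlog2D : Real.log (2 * D) ≤ ℓ := Real.log_le_log (by linarith) c3
  set bn : ℝ := CU * T * (4 * ℓ) with hbn
  have hbn0 : 0 ≤ bn := by positivity
  have hup : ∀ d : ℕ, 1 ≤ d → d ≤ Y → Nat.Coprime d M → ∀ χ : DirichletCharacter ℂ d, χ.IsPrimitive → n d χ ≤ bn := by
    intro d h1 h2 h3 χ h4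
    obtain ⟨_, _, a, ha⟩ := hL d χ h1 h3 h4
    have hd0 : (1 : ℝ) ≤ d := by exact_mod_cast h1
    have hQ : ((d * D : ℕ) : ℝ) = d * D := by push_cast; ring
    have hQ1 : (1 : ℝ) ≤ ((d * D : ℕ) : ℝ) := by rw [hQ]; exact one_le_mul_of_one_le_of_one_le hd0 hD0
    have h5 := hU _ (L d χ) a hQ1 ha T (2 * T) (by linarith) (by linarith)
    refine h5.trans ?_
    have h6 : 2 * T - T = T := by ring
    rw [h6, hbn]
    apply mul_le_mul_of_nonneg_left _ (by positivity)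
    have h7 : ((d * D : ℕ) : ℝ) * (2 * T) ≤ Y * (2 * D) * T := by
      rw [hQ]
      have h8 : (d : ℝ) ≤ Y := by exact_mod_cast h2
      calc (d : ℝ) * D * (2 * T) = d * (2 * D) * T := by ring
        _ ≤ Y * (2 * D) * T := by gcongr
    have h9 := Real.log_le_log (mul_pos (by linarith) (by linarith)) h7
    have h10 : Real.log (Y * (2 * D) * T) = Real.log Y + Real.log (2 * D) + Real.log T := by
      rw [Real.log_mul (by positivity) (by positivity), Real.log_mul (by positivity) (by positivity)]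
    linarith
  have htail : ∑ m ∈ mset.filter (fun m => ¬ m ≤ B), P n m ≤ T / 2000 := by
    have e1 : ∀ m ∈ mset.filter (fun m => ¬ m ≤ B), P n m ≤ (bn * (1 + Real.log Y)) * ((m : ℝ) ^ 2)⁻¹ := by
      intro m hm
      rw [mem_filter, hmset, mem_filter, mem_Icc] at hm
      have h1 : H385.primFamM M (X / m) (Y / m) n ≤ bn * (1 + Real.log Y) :=
        fam_le hbn0 (Nat.div_le_self Y m) (by omega) hup
      calc P n m = (1 / (m : ℝ) ^ 2) * H385.primFamM M (X / m) (Y / m) n := rfl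
        _ ≤ (1 / (m : ℝ) ^ 2) * (bn * (1 + Real.log Y)) := mul_le_mul_of_nonneg_left h1 (by positivity)
        _ = _ := by ring
    refine (Finset.sum_le_sum e1).trans ?_
    rw [← Finset.mul_sum]
    have e2 : ∑ m ∈ mset.filter (fun m => ¬ m ≤ B), ((m : ℝ) ^ 2)⁻¹ ≤ 2 / ((B : ℝ) + 1) := by
      refine le_trans ?_ (sum_Ioo_inv_sq_le (α := ℝ) B (Y + 1))
      apply Finset.sum_le_sum_of_subset_of_nonneg
      · intro m hm
        rw [mem_filter, hmset, mem_filter, mem_Icc] at hm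
        rw [mem_Ioo]
        omega
      · intro m _ _
        positivity
    have hBr : Real.exp (ℓ / 2) ≤ (B : ℝ) + 1 := by
      have h1 : X < (B + 1) * (B + 1) := Nat.lt_succ_sqrt X
      have h2 : (X : ℝ) < ((B : ℝ) + 1) * (B + 1) := by exact_mod_cast h1
      have h3 : Real.exp (ℓ / 2) ^ 2 = X := by
        rw [← Real.exp_nat_mul, hℓ]
        push_cast
        rw [show (2 : ℝ) * (Real.log X / 2) = Real.log X by ring, Real.exp_log hX0']
      have h4 : 0 ≤ (B : ℝ) + 1 := by positivity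
      by_contra hcon
      push Not at hcon
      have := mul_self_lt_mul_self h4 hcon
      rw [← sq (Real.exp (ℓ / 2)), h3] at this
      linarith
    have hE := hexp ℓ d2
    have hEpos := Real.exp_pos (ℓ / 2)
    have e3 : 1 + Real.log Y ≤ 3 * ℓ := by linarith
    calc (bn * (1 + Real.log Y)) * ∑ m ∈ mset.filter (fun m => ¬ m ≤ B), ((m : ℝ) ^ 2)⁻¹ ≤
          (bn * (3 * ℓ)) * (2 / ((B : ℝ) + 1)) := by
            apply mul_le_mul _ e2 (Finset.sum_nonneg fun m _ => by positivity) (by positivity)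
            exact mul_le_mul_of_nonneg_left e3 hbn0
      _ ≤ (bn * (3 * ℓ)) * (2 / Real.exp (ℓ / 2)) := by
            apply mul_le_mul_of_nonneg_left _ (by positivity)
            exact div_le_div_of_nonneg_left (by norm_num) hEpos hBr
      _ = (T / 2000) * (48000 * CU * ℓ ^ 2 / Real.exp (ℓ / 2)) := by rw [hbn]; ring
      _ ≤ (T / 2000) * 1 := by
            apply mul_le_mul_of_nonneg_left _ (by positivity)
            rw [div_le_one hEpos]; exact hE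
      _ = T / 2000 := mul_one _
  -- the term `m = 1`
  have h1mem : 1 ∈ mset := by
    rw [hmset, mem_filter, mem_Icc]
    exact ⟨⟨le_rfl, by omega⟩, Nat.coprime_one_left M⟩
  have hmain : T ≤ ∑ m ∈ mset, P n m := by
    refine le_trans ?_ (Finset.single_le_sum (fun m _ => hP0 m) h1mem)
    have e1 : P n 1 = H385.primFamM M X Y n := by
      show (1 / ((1 : ℕ) : ℝ) ^ 2) * H385.primFamM M (X / 1) (Y / 1) n = _
      rw [Nat.div_one, Nat.div_one]
      norm_num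
    rw [e1]
    have e2 : 1 ≤ H385.primFamM M X Y (fun _ _ => 1) := by
      have h1 := (abs_le.1 (hmass X Y hXn hXYn)).1
      have h2 : Real.exp ((Cm + 1) / H385.cM M) ≤ (Y : ℝ) / X := by
        rw [le_div_iff₀ hX0']
        exact le_trans (mul_le_mul_of_nonneg_right (le_max_right _ _) hX0'.le) hXY
      have h3 : (Cm + 1) / H385.cM M ≤ Real.log ((Y : ℝ) / X) := by
        rw [Real.le_log_iff_exp_le (by positivity)]; exact h2
      rw [div_le_iff₀ hcM] at h3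
      linarith
    have e3 := fam_ge (f := n) (c := T) (M := M) (X := X) (Y := Y) hT0.le (by
      intro d h1 h2 h3 χ h4
      obtain ⟨_, _, a, ha⟩ := hL d χ (by omega) h3 h4
      refine hLow X d (L d χ) a T hX1' d1 ?_ ?_ hT1 hTX ha
      · exact_mod_cast h1.le
      · refine le_trans ?_ hYX2
        exact_mod_cast h2)
    calc T = T * 1 := (mul_one T).symm
      _ ≤ T * H385.primFamM M X Y (fun _ _ => 1) := mul_le_mul_of_nonneg_left e2 hT0.le
      _ ≤ _ := e3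
  refine ⟨hmain, ?_⟩
  have hle : ∑ m ∈ mset.filter (fun m => m ≤ B), P sf m ≤ ∑ m ∈ mset, P sf m :=
    Finset.sum_le_sum_of_subset_of_nonneg (Finset.filter_subset _ _) (fun m _ _ => hPs0 m)
  have hgoal : 0.672 * ∑ m ∈ mset, P n m ≤ ∑ m ∈ mset, P sf m := by
    linarith
  exact hgoal

end Pool.Agent.H82R3.EK
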