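import Pool.Agent.H82R3.EK.Count

/-!
The twisted L-functions of `y² = x³ - D² x` (library of helper385 and helper304), with uniform upper and lower
bounds for the number of zeros.
-/

set_option autoImplicit false

open Complex Filter Topology
open H370 (zset mult NN Nd Ns)

namespace Pool.Agent.H82R3.EK

open Pool.Agent.H304R2.EC H385 in
/-- all that is needed about the family -/
theorem ec_pack (D : ℕ) (hD : Odd D) (hsf : Squarefree D) :
    ∃ (L : (q : ℕ) → DirichletCharacter ℂ q → ℂ → ℂ) (A : ℝ), 1 ≤ A ∧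
      (∀ (q : ℕ) (χ : DirichletCharacter ℂ q), 1 ≤ q → Nat.Coprime q (2 * D) → χ.IsPrimitive →
        Differentiable ℂ (L q χ) ∧ (∀ s : ℂ, 1 < s.re →
          HasProd (fun p : Nat.Primes => H385.eulD D q χ s p) (L q χ s)) ∧
        ∃ a : ℕ → ℂ, H385.GoodD 2 A ((q * D : ℕ) : ℝ) (L q χ) a) ∧
      ∃ K η X0 : ℝ, 1 ≤ K ∧ 0 < η ∧ 1 ≤ X0 ∧
        ∀ (X Y : ℕ) (T : ℝ), X0 ≤ X → K * X ≤ Y → (Y : ℝ) ≤ (X : ℝ) ^ (1 + η) →
        (Real.log X) ^ 2 ≤ T → T ≤ (X : ℝ) ^ η →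
        0.6725 * H385.primFamM (2 * D) X Y (fun q χ => (NN (L q χ) T (2 * T) : ℝ)) ≤
          H385.primFamM (2 * D) X Y (fun q χ => (Ns (L q χ) T (2 * T) : ℝ)) := by
  have hD0 : D ≠ 0 := by
    rintro rfl
    exact absurd hD (by decide)
  obtain ⟨ψ, hψ, hψj⟩ := jac_char D hD hsf
  obtain ⟨A, hA, hgood⟩ := ec_good
  obtain ⟨C, hC⟩ := rs
  refine ⟨LD D ψ, A, hA, ?_, ?_⟩
  · intro q χ h1 h2 h3
    obtain ⟨g1, g2⟩ := LD_props D hD ψ hψ hψj q χ h1 h2 h3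
    refine ⟨g1, g2, fun n => pm χ ψ (n : ZMod (q * D)) * (Pool.Agent.H304R2.EC.cc n : ℂ) *
      (ArithmeticFunction.vonMangoldt n : ℂ), ?_⟩
    · have i1 : NeZero q := ⟨by omega⟩
      have i2 : NeZero D := ⟨hD0⟩
      have i3 : NeZero (q * D) := ⟨Nat.mul_ne_zero (by omega) hD0⟩
      have hq2 : Nat.Coprime q 2 := Nat.Coprime.coprime_mul_right_right h2
      have hqD : Nat.Coprime q D := Nat.Coprime.coprime_mul_left_right h2
      have hqodd : Odd q := Nat.Coprime.odd_of_right hq2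
      exact hgood (q * D) (pm χ ψ) (hqodd.mul hD) (pm_primitive hqD h3 hψ)
  · have hc : ∀ n, ‖((Pool.Agent.H304R2.EC.cc n : ℝ) : ℂ)‖ ≤ 2 := by
      intro n
      rw [Complex.norm_real, Real.norm_eq_abs]
      exact cc_le n
    have hT := TwD_twist A hA (fun n => ((Pool.Agent.H304R2.EC.cc n : ℝ) : ℂ)) hc
      (fun q χ => FF q χ) (fun q _ χ h1 h2 => hgood q χ h1 h2) D hD ψ hψ
    have hS := Selb_twist (fun n => Pool.Agent.H304R2.EC.cc n) cc_le C hC D hD0 ψ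
    have hM : Squarefree (2 * D) := by
      rw [Nat.squarefree_mul (Nat.coprime_two_left.mpr hD)]
      exact ⟨Nat.prime_two.prime.squarefree, hsf⟩
    have hDr : (1 : ℝ) ≤ D := by exact_mod_cast Nat.one_le_iff_ne_zero.mpr hD0
    have hA' : 1 ≤ A * (D : ℝ) ^ A + A + 2 * Real.log D := by
      have h1 : 0 ≤ A * (D : ℝ) ^ A := by positivity
      have h2 : 0 ≤ Real.log D := Real.log_nonneg hDr
      linarith
    obtain ⟨K, η, X0, h1, h2, h3, h4⟩ := final_deg2 _ hA' (2 * D) hM _ _ hT _ hS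
    exact ⟨K, η, X0, h1, h2, h3, fun X Y T a1 a2 a3 a4 a5 => (h4 X Y T a1 a2 a3 a4 a5).1⟩

end Pool.Agent.H82R3.EK
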